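import Mathlib

/-!
# Prime divisors of the values of an integer polynomial, primitive roots, two-term rotations
-/

set_option autoImplicit false

open Polynomial Finset

namespace H584.SH

lemma clear_denom (u : ℚ[X]) : ∃ (b : ℤ) (U : ℤ[X]), b ≠ 0 ∧
    U.map (Int.castRingHom ℚ) = C (b : ℚ) * u := by
  obtain ⟨b, hb, hU⟩ := IsLocalization.integerNormalization_spec (nonZeroDivisors ℤ) u
  refine ⟨b, IsLocalization.integerNormalization (nonZeroDivisors ℤ) u,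
    nonZeroDivisors.ne_zero hb, ?_⟩
  have e : algebraMap ℤ ℚ = Int.castRingHom ℚ := rfl
  rw [← e, hU]
  ext i
  simp

lemma exists_bez {P Q : ℤ[X]}
    (h : IsCoprime (P.map (Int.castRingHom ℚ)) (Q.map (Int.castRingHom ℚ))) :
    ∃ (Δ : ℤ) (U V : ℤ[X]), Δ ≠ 0 ∧ U * P + V * Q = C Δ := by
  obtain ⟨u, v, huv⟩ := h
  obtain ⟨b1, U, hb1, hU⟩ := clear_denom u
  obtain ⟨b2, V, hb2, hV⟩ := clear_denom v
  refine ⟨b1 * b2, C b2 * U, C b1 * V, mul_ne_zero hb1 hb2, ?_⟩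
  apply map_injective (Int.castRingHom ℚ) Int.cast_injective
  rw [Polynomial.map_add, Polynomial.map_mul, Polynomial.map_mul, Polynomial.map_mul,
    Polynomial.map_mul, hU, hV, map_C, map_C, map_C]
  have : (C (b2 : ℚ) * (C (b1 : ℚ) * u) * P.map (Int.castRingHom ℚ) +
      C (b1 : ℚ) * (C (b2 : ℚ) * v) * Q.map (Int.castRingHom ℚ)) = C ((b1 * b2 : ℤ) : ℚ) := by
    have e : C ((b1 * b2 : ℤ) : ℚ) = C (b1 : ℚ) * C (b2 : ℚ) := by rw [← C_mul]; push_cast; rfl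
    rw [e]
    linear_combination (C (b1 : ℚ) * C (b2 : ℚ)) * huv
  simpa using this

/-- Hensel's lemma -/
lemma hensel {P : ℤ[X]} {p : ℕ} (hp : p.Prime) {s : ℤ} (h : (p : ℤ) ∣ P.eval s)
    (h' : ¬ (p : ℤ) ∣ (derivative P).eval s) (l : ℕ) :
    ∃ σ : ℤ, (p : ℤ) ^ (l + 1) ∣ P.eval σ ∧ (p : ℤ) ∣ σ - s := by
  induction l with
  | zero => exact ⟨s, by simpa using h, by simp⟩
  | succ l ih =>
    obtain ⟨σ, ⟨e, he⟩, hσ⟩ := ih
    have hd : ¬ (p : ℤ) ∣ (derivative P).eval σ := by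
      intro h2
      apply h'
      have h3 := (sub_dvd_eval_sub σ s (derivative P))
      have h4 := hσ.trans h3
      exact (Int.dvd_iff_dvd_of_dvd_sub h4).1 h2
    have hpi : Prime (p : ℤ) := Nat.prime_iff_prime_int.1 hp
    obtain ⟨a, b, hab⟩ := (hpi.coprime_iff_not_dvd.2 hd).symm
    obtain ⟨k, hk⟩ := P.binomExpansion σ ((p : ℤ) ^ (l + 1) * (-e * a))
    refine ⟨σ + (p : ℤ) ^ (l + 1) * (-e * a), ?_, ?_⟩
    · rw [hk, he]
      refine ⟨e * b + k * (p : ℤ) ^ l * (-e * a) ^ 2, ?_⟩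
      have h5 : b * (p : ℤ) = 1 - a * (derivative P).eval σ := by linarith
      calc (p : ℤ) ^ (l + 1) * e + (derivative P).eval σ * ((p : ℤ) ^ (l + 1) * (-e * a)) +
            k * ((p : ℤ) ^ (l + 1) * (-e * a)) ^ 2 =
          (p : ℤ) ^ (l + 1) * e * (1 - a * (derivative P).eval σ) +
            k * ((p : ℤ) ^ (l + 1) * (-e * a)) ^ 2 := by ring
        _ = (p : ℤ) ^ (l + 1) * e * (b * p) + k * ((p : ℤ) ^ (l + 1) * (-e * a)) ^ 2 := by rw [h5]
        _ = _ := by ring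
    · have : σ + (p : ℤ) ^ (l + 1) * (-e * a) - s = (σ - s) + p * ((p : ℤ) ^ l * (-e * a)) := by
        ring
      rw [this]
      exact dvd_add hσ (Dvd.intro _ rfl)

/-- A separable polynomial which does not vanish at `0` and `1` has a `p`-adic root for arbitrarily
large primes `p`. -/
theorem exists_prime_root {P : ℤ[X]} (hsep : IsCoprime (P.map (Int.castRingHom ℚ))
      ((derivative P).map (Int.castRingHom ℚ)))
    (hd : 1 ≤ P.natDegree) (h0 : P.eval 0 ≠ 0) (h1 : P.eval 1 ≠ 0) (L : ℕ) :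
    ∃ p : ℕ, p.Prime ∧ L < p ∧ ∀ l : ℕ, ∃ σ : ℤ, (p : ℤ) ^ l ∣ P.eval σ ∧ ¬ (p : ℤ) ∣ 1 - σ ∧
      ¬ (p : ℤ) ∣ σ := by
  obtain ⟨Δ, U, V, hΔ, hUV⟩ := exists_bez hsep
  obtain ⟨c, hc⟩ : ∃ c, c = P.eval 0 := ⟨_, rfl⟩
  obtain ⟨N, hN⟩ : ∃ N : ℤ, N = (L.factorial : ℤ) * Δ * (P.eval 1 * P.eval 0) := ⟨_, rfl⟩
  have hN0 : N ≠ 0 := by
    rw [hN]
    exact mul_ne_zero (mul_ne_zero (by exact_mod_cast Nat.factorial_ne_zero L) hΔ)
      (mul_ne_zero h1 h0)
  rw [← hc] at h0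
  obtain ⟨T, hT⟩ : ∃ T : ℤ[X], T = P.comp (C (c * N) * X) := ⟨_, rfl⟩
  have hTd : 1 ≤ T.natDegree := by
    rw [hT, natDegree_comp, natDegree_C_mul_X _ (mul_ne_zero h0 hN0)]
    omega
  have hTC : ∀ v : ℤ, T - C v ≠ 0 := by
    intro v h
    have h2 : T = C v := sub_eq_zero.1 h
    rw [h2, natDegree_C] at hTd
    omega
  obtain ⟨u, hu⟩ : ∃ u : ℤ, ((T - C 0) * (T - C c) * (T - C (-c))).eval u ≠ 0 := by
    by_contra hcon
    push Not at hcon
    have : (T - C 0) * (T - C c) * (T - C (-c)) = 0 := by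
      apply Polynomial.funext
      intro u
      rw [hcon u, eval_zero]
    exact mul_ne_zero (mul_ne_zero (hTC 0) (hTC c)) (hTC (-c)) this
  obtain ⟨s, hs⟩ : ∃ s, s = c * N * u := ⟨_, rfl⟩
  have hTu : T.eval u = P.eval s := by
    rw [hT, eval_comp, hs]
    simp
  rw [eval_mul, eval_mul, eval_sub, eval_sub, eval_sub, eval_C, eval_C, eval_C, hTu] at hu
  have hu0 : P.eval s ≠ 0 := by
    intro h
    rw [h] at hu
    simp at hu
  have hu1 : P.eval s ≠ c := by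
    intro h
    rw [h] at hu
    simp at hu
  have hu2 : P.eval s ≠ -c := by
    intro h
    rw [h] at hu
    simp at hu
  obtain ⟨f, hf⟩ : (s - 0) ∣ P.eval s - P.eval 0 := sub_dvd_eval_sub s 0 P
  have hval : P.eval s = c * (1 + N * u * f) := by
    rw [← hc, sub_zero] at hf
    have : P.eval s = c + s * f := by linarith
    rw [this, hs]
    ring
  have hne1 : (1 + N * u * f).natAbs ≠ 1 := by
    intro h
    rcases Int.natAbs_eq_iff.1 h with h | h
    · rw [h] at hval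
      exact hu1 (by rw [hval]; simp)
    · rw [h] at hval
      exact hu2 (by rw [hval]; simp)
  obtain ⟨p, hp, hpd⟩ := Nat.exists_prime_and_dvd hne1
  have hpd' : (p : ℤ) ∣ 1 + N * u * f := Int.natCast_dvd.2 hpd
  have hpN : ¬ (p : ℤ) ∣ N := by
    intro h
    have h2 : (p : ℤ) ∣ 1 := by
      have h3 : (1 : ℤ) = (1 + N * u * f) - N * (u * f) := by ring
      rw [h3]
      exact dvd_sub hpd' (h.mul_right _)
    have := Int.natCast_dvd_natCast.1 (by exact_mod_cast h2 : (p : ℤ) ∣ ((1 : ℕ) : ℤ))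
    exact hp.one_lt.ne' (Nat.dvd_one.1 this)
  have hpP : (p : ℤ) ∣ P.eval s := by
    rw [hval]
    exact hpd'.mul_left _
  have hpD : ¬ (p : ℤ) ∣ (derivative P).eval s := by
    intro h
    apply hpN
    have h2 := congrArg (eval s) hUV
    rw [eval_add, eval_mul, eval_mul, eval_C] at h2
    rw [hN, ← h2]
    exact ((dvd_add (hpP.mul_left _) (h.mul_left _)).mul_left _).mul_right _
  refine ⟨p, hp, ?_, fun l => ?_⟩
  · by_contra hcon
    apply hpN
    rw [hN]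
    have : p ∣ L.factorial := (hp.dvd_factorial).2 (by omega)
    exact ((Int.natCast_dvd_natCast.2 this).mul_right _).mul_right _
  · obtain ⟨σ, h2, h3⟩ := hensel hp hpP hpD l
    have h7 : (p : ℤ) ∣ P.eval σ := (dvd_pow_self _ (by omega)).trans h2
    refine ⟨σ, (pow_dvd_pow _ (by omega)).trans h2, fun h4 => ?_, fun h4 => ?_⟩
    · apply hpN
      have h5 : (p : ℤ) ∣ P.eval 1 := by
        have h6 := h4.trans (sub_dvd_eval_sub 1 σ P)
        exact (Int.dvd_iff_dvd_of_dvd_sub h6).2 h7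
      rw [hN]
      exact (h5.mul_right _).mul_left _
    · apply hpN
      have h5 : (p : ℤ) ∣ P.eval 0 := by
        have h8 : σ ∣ P.eval σ - P.eval 0 := by
          have := sub_dvd_eval_sub σ 0 P
          rwa [sub_zero] at this
        exact (Int.dvd_iff_dvd_of_dvd_sub (h4.trans h8)).1 h7
      rw [hN]
      exact (h5.mul_left _).mul_left _

/-- primitive roots modulo all powers of an odd prime -/
theorem exists_prim {p : ℕ} (hp : p.Prime) (hp2 : p ≠ 2) : ∃ w₀ : ℕ, ∀ w : ℕ, w ≡ w₀ [MOD p ^ 2] →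
    ¬ (p : ℤ) ∣ w ∧
    ∀ l : ℕ, ∀ τ : ℤ, ¬ (p : ℤ) ∣ τ → ∃ e : ℕ, (p : ℤ) ^ l ∣ (w : ℤ) ^ e - τ := by
  have : Fact p.Prime := ⟨hp⟩
  have hne : NeZero (p ^ 2) := ⟨pow_ne_zero _ hp.ne_zero⟩
  have := ZMod.isCyclic_units_of_prime_pow p hp hp2 2
  obtain ⟨g, hg⟩ := IsCyclic.exists_generator (α := (ZMod (p ^ 2))ˣ)
  refine ⟨(g : ZMod (p ^ 2)).val, fun w hw => ?_⟩
  have hwg : ((w : ℕ) : ZMod (p ^ 2)) = (g : ZMod (p ^ 2)) := by
    have := (ZMod.natCast_eq_natCast_iff _ _ _).2 hw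
    rw [this, ZMod.natCast_zmod_val]
  have hpi : Prime (p : ℤ) := Nat.prime_iff_prime_int.1 hp
  have base : ∀ τ : ℤ, ¬ (p : ℤ) ∣ τ → ∃ e : ℕ, (p : ℤ) ^ 2 ∣ (w : ℤ) ^ e - τ := by
    intro τ hτ
    have hu : IsUnit ((τ : ℤ) : ZMod (p ^ 2)) := by
      rw [ZMod.coe_int_isUnit_iff_isCoprime, Nat.cast_pow]
      exact (hpi.coprime_iff_not_dvd.2 hτ).pow_left
    obtain ⟨e, he⟩ := (mem_powers_iff_mem_zpowers).2 (hg hu.unit)
    refine ⟨e, ?_⟩
    have h1 : (((w : ℤ) ^ e - τ : ℤ) : ZMod (p ^ 2)) = 0 := by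
      push_cast
      rw [hwg, sub_eq_zero]
      have := congrArg Units.val he
      simpa using this
    have := (ZMod.intCast_zmod_eq_zero_iff_dvd _ _).1 h1
    exact_mod_cast this
  have hpw : ¬ (p : ℤ) ∣ (w : ℤ) := by
    intro h
    have hu : IsUnit ((w : ℤ) : ZMod (p ^ 2)) := by
      rw [Int.cast_natCast, hwg]
      exact g.isUnit
    rw [ZMod.coe_int_isUnit_iff_isCoprime, Nat.cast_pow] at hu
    have h2 : IsCoprime (p : ℤ) (w : ℤ) := (IsCoprime.pow_left_iff (by norm_num)).1 hu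
    exact (hpi.coprime_iff_not_dvd.1 h2) h
  -- `w ^ (p - 1) = 1 + p * v`
  obtain ⟨v, hv⟩ : (p : ℤ) ∣ (w : ℤ) ^ (p - 1) - 1 := by
    have h1 := Int.ModEq.pow_card_sub_one_eq_one hp (n := (w : ℤ))
      ((hpi.coprime_iff_not_dvd.2 hpw).symm)
    exact (Int.modEq_iff_dvd.1 h1.symm)
  have hpv : ¬ (p : ℤ) ∣ v := by
    rintro ⟨v', rfl⟩
    have h1 : (((w : ℤ) ^ (p - 1) - 1 : ℤ) : ZMod (p ^ 2)) = 0 := by
      rw [ZMod.intCast_zmod_eq_zero_iff_dvd, hv]
      refine ⟨v', ?_⟩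
      push_cast
      ring
    push_cast at h1
    rw [hwg, sub_eq_zero] at h1
    have h2 : g ^ (p - 1) = 1 := by
      apply Units.ext
      simpa using h1
    have h3 := orderOf_dvd_of_pow_eq_one h2
    rw [orderOf_eq_card_of_forall_mem_zpowers hg, Nat.card_eq_fintype_card,
      ZMod.card_units_eq_totient, Nat.totient_prime_pow hp (by norm_num)] at h3
    have h4 := Nat.le_of_dvd (by have := hp.two_le; omega) h3
    have h5 := hp.two_le
    have h6 : p ^ (2 - 1) * (p - 1) = p * (p - 1) := by norm_num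
    rw [h6] at h4
    have h7 : 2 * (p - 1) ≤ p * (p - 1) := Nat.mul_le_mul_right _ h5
    omega
  have hpow : ∀ l : ℕ, ∃ y : ℤ, (w : ℤ) ^ ((p - 1) * p ^ l) = 1 + (p : ℤ) ^ (l + 1) * y ∧
      ¬ (p : ℤ) ∣ y := by
    intro l
    have h3 : 3 ≤ p := by
      have := hp.two_le
      omega
    obtain ⟨y, hy⟩ := ZMod.exists_one_add_mul_pow_prime_pow_eq (R := ℤ) (u := p) (v := p) hp dvd_rfl
      (by
        have : (p : ℤ) * p * p = (p : ℤ) ^ 3 := by ring
        rw [this]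
        exact pow_dvd_pow _ h3) v l
    refine ⟨v + p * y, ?_, fun h => hpv ?_⟩
    · have h4 : (w : ℤ) ^ (p - 1) = 1 + p * v := by linarith
      rw [pow_mul, h4, hy]
      ring
    · have : v = (v + p * y) - p * y := by ring
      rw [this]
      exact dvd_sub h (dvd_mul_right _ _)
  have step : ∀ l : ℕ, ∀ τ : ℤ, ¬ (p : ℤ) ∣ τ → ∃ e : ℕ, (p : ℤ) ^ (l + 1) ∣ (w : ℤ) ^ e - τ := by
    intro l
    induction l with
    | zero =>
      intro τ hτ
      obtain ⟨e, he⟩ := base τ hτ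
      exact ⟨e, (pow_dvd_pow _ (by norm_num)).trans he⟩
    | succ l ih =>
      intro τ hτ
      obtain ⟨e, s, hs⟩ := ih τ hτ
      obtain ⟨y, hy, hpy⟩ := hpow l
      have hu : ¬ (p : ℤ) ∣ (w : ℤ) ^ e * y := by
        intro h
        rcases hpi.dvd_or_dvd h with h | h
        · exact hpw (hpi.dvd_of_dvd_pow h)
        · exact hpy h
      obtain ⟨a, b, hab⟩ := (hpi.coprime_iff_not_dvd.2 hu).symm
      -- `r ≡ - s a` modulo `p`
      obtain ⟨r, hr⟩ : ∃ r : ℕ, (p : ℤ) ∣ (r : ℤ) + s * a := by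
        refine ⟨((-(s * a)) % p).toNat, ?_⟩
        rw [Int.toNat_of_nonneg (Int.emod_nonneg _ (by exact_mod_cast hp.ne_zero))]
        have := Int.emod_add_mul_ediv (-(s * a)) (p : ℤ)
        refine ⟨-((-(s * a)) / p), ?_⟩
        linarith
      obtain ⟨r', hr'⟩ := hr
      refine ⟨e + (p - 1) * p ^ l * r, ?_⟩
      obtain ⟨k, hk⟩ := (X ^ r : ℤ[X]).binomExpansion 1 ((p : ℤ) ^ (l + 1) * y)
      have hk' : (1 + (p : ℤ) ^ (l + 1) * y) ^ r = 1 + r * ((p : ℤ) ^ (l + 1) * y) +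
          k * ((p : ℤ) ^ (l + 1) * y) ^ 2 := by
        simpa [derivative_X_pow] using hk
      have hexp : (w : ℤ) ^ (e + (p - 1) * p ^ l * r) =
          (w : ℤ) ^ e * (1 + (p : ℤ) ^ (l + 1) * y) ^ r := by rw [pow_add, pow_mul, hy]
      rw [hexp, hk']
      have h5 : (w : ℤ) ^ e = τ + (p : ℤ) ^ (l + 1) * s := by linarith
      have h6 : (r : ℤ) = p * r' - s * a := by linarith
      refine ⟨s * b + r' * ((w : ℤ) ^ e * y) + (w : ℤ) ^ e * k * (p : ℤ) ^ l * y ^ 2, ?_⟩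
      have h7 : s * (a * ((w : ℤ) ^ e * y) + b * p) = s := by rw [hab]; ring
      calc (w : ℤ) ^ e * (1 + r * ((p : ℤ) ^ (l + 1) * y) + k * ((p : ℤ) ^ (l + 1) * y) ^ 2) - τ =
          ((w : ℤ) ^ e - τ) + (p : ℤ) ^ (l + 1) * ((r : ℤ) * ((w : ℤ) ^ e * y)) +
            (w : ℤ) ^ e * k * ((p : ℤ) ^ (l + 1) * y) ^ 2 := by ring
        _ = (p : ℤ) ^ (l + 1) * s + (p : ℤ) ^ (l + 1) * ((p * r' - s * a) * ((w : ℤ) ^ e * y)) +
            (w : ℤ) ^ e * k * ((p : ℤ) ^ (l + 1) * y) ^ 2 := by rw [hs, h6]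
        _ = (p : ℤ) ^ (l + 1) * (s * (a * ((w : ℤ) ^ e * y) + b * p)) +
            (p : ℤ) ^ (l + 1) * ((p * r' - s * a) * ((w : ℤ) ^ e * y)) +
            (w : ℤ) ^ e * k * ((p : ℤ) ^ (l + 1) * y) ^ 2 := by rw [h7]
        _ = _ := by ring
  refine ⟨hpw, ?_⟩
  intro l τ hτ
  obtain ⟨e, he⟩ := step l τ hτ
  exact ⟨e, (pow_dvd_pow _ (by omega)).trans he⟩

/-! ## Two-term rotations -/

lemma steps {v d r s : ℝ} (hd : 0 < d) (hv : v ≤ r) (hs : d < s - r) :
    ∃ j : ℕ, r < v + j * d ∧ v + j * d < s := by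
  refine ⟨⌊(r - v) / d⌋₊ + 1, ?_, ?_⟩
  · have h1 := Nat.lt_floor_add_one ((r - v) / d)
    rw [div_lt_iff₀ hd] at h1
    push_cast
    linarith
  · have h1 := Nat.floor_le (show 0 ≤ (r - v) / d from div_nonneg (by linarith) hd.le)
    rw [le_div_iff₀ hd] at h1
    push_cast
    linarith

lemma rotation {x y : ℝ} (hx : 0 < x) (hy : 0 < y) (hirr : Irrational (x / y)) {r s : ℝ}
    (hrs : r < s) (N : ℕ) : ∃ i j : ℕ, N ≤ i ∧ N ≤ j ∧ r < i * x - j * y ∧ i * x - j * y < s := by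
  have hdense := dense_addSubgroupClosure_pair_iff.2 hirr
  obtain ⟨ε, hε⟩ : ∃ ε, ε = min (s - r) (min x y) := ⟨_, rfl⟩
  have hε0 : 0 < ε := by rw [hε]; exact lt_min (by linarith) (lt_min hx hy)
  obtain ⟨d, hd, h0, h1⟩ := hdense.exists_between hε0
  obtain ⟨a, b, hab⟩ := AddSubgroup.mem_closure_pair.1 hd
  rw [zsmul_eq_mul, zsmul_eq_mul] at hab
  have h2 : d < s - r := h1.trans_le (by rw [hε]; exact min_le_left _ _)
  have h3 : d < x := h1.trans_le (by rw [hε]; exact (min_le_right _ _).trans (min_le_left _ _))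
  have h4 : d < y := h1.trans_le (by rw [hε]; exact (min_le_right _ _).trans (min_le_right _ _))
  have cases : (0 < a ∧ b ≤ 0) ∨ (a ≤ 0 ∧ 0 < b) := by
    by_contra hcon
    push Not at hcon
    obtain ⟨c1, c2⟩ := hcon
    rcases lt_or_ge 0 a with ha | ha
    · have hb := c1 ha
      have ha' : (1 : ℝ) ≤ a := by exact_mod_cast ha
      have hb' : (0 : ℝ) < b := by exact_mod_cast hb
      nlinarith
    · have hb := c2 ha
      have ha' : (a : ℝ) ≤ 0 := by exact_mod_cast ha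
      have hb' : (b : ℝ) ≤ 0 := by exact_mod_cast hb
      nlinarith
  rcases cases with ⟨ha, hb⟩ | ⟨ha, hb⟩
  · -- start from below
    obtain ⟨j0, hj0⟩ := exists_nat_ge ((N * x - r) / y)
    rw [div_le_iff₀ hy] at hj0
    obtain ⟨t, ht1, ht2⟩ := steps (v := N * x - (max N j0 : ℕ) * y) (r := r) (s := s) h0 (by
      have : (j0 : ℝ) ≤ (max N j0 : ℕ) := by exact_mod_cast le_max_right _ _
      nlinarith) h2
    obtain ⟨a', rfl⟩ := Int.eq_ofNat_of_zero_le ha.le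
    obtain ⟨b', hb'⟩ := Int.eq_ofNat_of_zero_le (neg_nonneg.2 hb)
    have hb2 : (b : ℝ) = -(b' : ℝ) := by
      have : b = -(b' : ℤ) := by omega
      rw [this]
      push_cast
      ring
    refine ⟨N + t * a', max N j0 + t * b', by omega, ?_, ?_, ?_⟩
    · exact (le_max_left _ _).trans (Nat.le_add_right _ _)
    · push_cast at ht1 ⊢
      rw [← hab, hb2] at ht1
      push_cast at ht1
      linarith
    · push_cast at ht2 ⊢
      rw [← hab, hb2] at ht2
      push_cast at ht2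
      linarith
  · -- start from above
    obtain ⟨i0, hi0⟩ := exists_nat_ge ((N * y + s) / x)
    rw [div_le_iff₀ hx] at hi0
    obtain ⟨t, ht1, ht2⟩ := steps (v := -((max N i0 : ℕ) * x - N * y)) (r := -s) (s := -r) h0 (by
      have : (i0 : ℝ) ≤ (max N i0 : ℕ) := by exact_mod_cast le_max_right _ _
      nlinarith) (by linarith)
    obtain ⟨b', rfl⟩ := Int.eq_ofNat_of_zero_le hb.le
    obtain ⟨a', ha'⟩ := Int.eq_ofNat_of_zero_le (neg_nonneg.2 ha)
    have ha2 : (a : ℝ) = -(a' : ℝ) := by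
      have : a = -(a' : ℤ) := by omega
      rw [this]
      push_cast
      ring
    refine ⟨max N i0 + t * a', N + t * b', ?_, by omega, ?_, ?_⟩
    · exact (le_max_left _ _).trans (Nat.le_add_right _ _)
    · push_cast at ht2 ⊢
      rw [← hab, ha2] at ht2
      push_cast at ht2
      linarith
    · push_cast at ht1 ⊢
      rw [← hab, ha2] at ht1
      push_cast at ht1
      linarith

lemma irr_log {u w : ℕ} (hu : 2 ≤ u) (hw : 2 ≤ w) (h : Nat.Coprime u w) :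
    Irrational (Real.log u / Real.log w) := by
  rintro ⟨q, hq⟩
  have hu1 : (1 : ℝ) < u := by exact_mod_cast (show 1 < u by omega)
  have hw1 : (1 : ℝ) < w := by exact_mod_cast (show 1 < w by omega)
  have hlu := Real.log_pos hu1
  have hlw := Real.log_pos hw1
  have hq0 : (0 : ℝ) < q := by rw [hq]; positivity
  have hq0' : 0 < q := by exact_mod_cast hq0
  have hnum : 0 < q.num := Rat.num_pos.2 hq0'
  obtain ⟨a, ha⟩ := Int.eq_ofNat_of_zero_le hnum.le
  have ha0 : 0 < a := by omega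
  have h1 : (q.den : ℝ) * Real.log u = a * Real.log w := by
    have h2 : (q : ℝ) = (a : ℝ) / q.den := by
      have := Rat.cast_def (K := ℝ) q
      rw [this, ha]
      push_cast
      rfl
    have hd : (0 : ℝ) < q.den := by exact_mod_cast q.pos
    rw [h2, div_eq_div_iff hd.ne' hlw.ne'] at hq
    linarith
  rw [← Real.log_pow, ← Real.log_pow] at h1
  have h3 : (u : ℝ) ^ q.den = (w : ℝ) ^ a :=
    Real.log_injOn_pos (Set.mem_Ioi.2 (by positivity)) (Set.mem_Ioi.2 (by positivity)) h1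
  have h4 : u ^ q.den = w ^ a := by exact_mod_cast h3
  have h5 : Nat.Coprime (u ^ q.den) (w ^ a) := Nat.Coprime.pow _ _ h
  rw [h4, Nat.coprime_self] at h5
  have h6 : 1 < w ^ a := Nat.one_lt_pow ha0.ne' (by omega)
  omega

end H584.SH
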