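import Mathlib
import Pool.Agent.H584.SH.Hens

/-!
# Pairs of powers close to the roots of two polynomials
-/

set_option autoImplicit false

open Polynomial Finset

namespace H584.SH

/-! ## The radical -/

/-- the radical -/
def R (m : ℕ) : ℕ := ∏ p ∈ m.primeFactors, p

lemma R_pos (m : ℕ) : 0 < R m := prod_pos fun _ hp => (Nat.prime_of_mem_primeFactors hp).pos

lemma R_le {m : ℕ} (hm : m ≠ 0) : R m ≤ m :=
  Nat.le_of_dvd (Nat.pos_of_ne_zero hm) (Nat.prod_primeFactors_dvd m)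

lemma R_mul (m n : ℕ) : R (m * n) ≤ R m * R n := by
  by_cases hm : m = 0
  · subst hm
    rw [zero_mul]
    exact Nat.le_mul_of_pos_right _ (R_pos n)
  by_cases hn : n = 0
  · subst hn
    rw [mul_zero]
    exact Nat.le_mul_of_pos_left _ (R_pos m)
  unfold R
  rw [Nat.primeFactors_mul hm hn, ← prod_union_inter]
  exact Nat.le_mul_of_pos_right _
    (prod_pos fun _ hp => (Nat.prime_of_mem_primeFactors (mem_inter.1 hp).1).pos)

lemma R_dvd {m n : ℕ} (h : m ∣ n) (hn : n ≠ 0) : R m ≤ R n := by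
  unfold R
  exact prod_le_prod_of_subset_of_one_le' (Nat.primeFactors_mono h hn)
    fun p hp _ => (Nat.prime_of_mem_primeFactors hp).one_le

lemma R_pow (m e : ℕ) : R (m ^ e) ≤ R m := by
  by_cases he : e = 0
  · subst he
    rw [pow_zero]
    have h1 : R 1 = 1 := by simp [R]
    rw [h1]
    exact R_pos m
  · unfold R
    rw [Nat.primeFactors_pow m he]

lemma R_gain {p l m : ℕ} (hp : p.Prime) (hl : 1 ≤ l) (h : p ^ l ∣ m) (hm : m ≠ 0) :
    R m * p ^ (l - 1) ≤ m := by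
  obtain ⟨q, rfl⟩ := h
  have hq : q ≠ 0 := by
    rintro rfl
    exact hm (mul_zero _)
  have h1 : R (p ^ l) ≤ p := (R_pow p l).trans (R_le hp.ne_zero)
  have h2 : R (p ^ l * q) ≤ p * q := (R_mul _ _).trans (Nat.mul_le_mul h1 (R_le hq))
  calc R (p ^ l * q) * p ^ (l - 1) ≤ p * q * p ^ (l - 1) := Nat.mul_le_mul_right _ h2
    _ = p ^ (l - 1 + 1) * q := by ring
    _ = p ^ l * q := by rw [Nat.sub_add_cancel hl]

/-! ## Homogeneous forms -/

/-- the form `z ^ e P (x / z)` -/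
def hom (P : ℤ[X]) (e : ℕ) (x z : ℤ) : ℤ := ∑ i ∈ range (e + 1), P.coeff i * x ^ i * z ^ (e - i)

lemma hom_eq {K : Type*} [Field K] [CharZero K] {P : ℤ[X]} {e : ℕ} (hP : P.natDegree ≤ e) {x z : ℤ}
    (hz : z ≠ 0) : ((hom P e x z : ℤ) : K) =
      (z : K) ^ e * (P.map (Int.castRingHom K)).eval ((x : K) / z) := by
  have hz' : (z : K) ≠ 0 := by exact_mod_cast hz
  rw [eval_eq_sum_range' (n := e + 1) (by have := natDegree_map_le (f := Int.castRingHom K) (p := P); omega), mul_sum, hom]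
  push_cast
  refine sum_congr rfl fun i hi => ?_
  have hie : i ≤ e := by
    have := mem_range.1 hi
    omega
  rw [coeff_map, div_pow]
  have : (z : K) ^ e = z ^ (e - i) * z ^ i := by rw [← pow_add, Nat.sub_add_cancel hie]
  rw [this]
  simp only [eq_intCast]
  field_simp

lemma hom_dvd {P : ℤ[X]} {e : ℕ} (hP : P.natDegree ≤ e) {x z σ M : ℤ} (h : M ∣ x - σ * z)
    (hM : M ∣ P.eval σ) : M ∣ hom P e x z := by
  have h1 : hom P e x z ≡ z ^ e * P.eval σ [ZMOD M] := by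
    rw [eval_eq_sum_range' (n := e + 1) (by omega), mul_sum, hom]
    refine Int.ModEq.sum fun i hi => ?_
    have hie : i ≤ e := by
      have := mem_range.1 hi
      omega
    have h2 : x ≡ σ * z [ZMOD M] := (Int.modEq_iff_dvd.2 h).symm
    have h3 : P.coeff i * x ^ i * z ^ (e - i) ≡ P.coeff i * (σ * z) ^ i * z ^ (e - i) [ZMOD M] :=
      ((h2.pow i).mul_left _).mul_right _
    have h4 : P.coeff i * (σ * z) ^ i * z ^ (e - i) = z ^ e * (P.coeff i * σ ^ i) := by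
      have : z ^ e = z ^ (e - i) * z ^ i := by rw [← pow_add, Nat.sub_add_cancel hie]
      rw [this]
      ring
    rw [h4] at h3
    exact h3
  exact (Int.ModEq.dvd_iff h1).2 (hM.mul_left _)

/-! ## The construction -/

lemma exists_crt {a m n : ℕ} (h : Nat.Coprime m n) (hm : m ≠ 0) (hn : n ≠ 0) :
    ∃ w : ℕ, 2 ≤ w ∧ w ≡ 1 [MOD m] ∧ w ≡ a [MOD n] := by
  obtain ⟨k, hk1, hk2⟩ := Nat.chineseRemainder h 1 a
  refine ⟨k + m * n * 2, ?_, ?_, ?_⟩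
  · have : 1 ≤ m * n := Nat.mul_pos (Nat.pos_of_ne_zero hm) (Nat.pos_of_ne_zero hn)
    omega
  · have : k + m * n * 2 ≡ k + 0 [MOD m] :=
      Nat.ModEq.add_left _ ((Nat.modEq_zero_iff_dvd).2 ⟨n * 2, by ring⟩)
    exact this.trans (by simpa using hk1)
  · have : k + m * n * 2 ≡ k + 0 [MOD n] :=
      Nat.ModEq.add_left _ ((Nat.modEq_zero_iff_dvd).2 ⟨m * 2, by ring⟩)
    exact this.trans (by simpa using hk2)

/-- Two coprime powers `y`, `z` of fixed numbers, with `y / z` in a given interval, for which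
`x = z - y` and the values of two given forms at `(x, z)` have small radicals. -/
theorem base {A B : ℤ[X]} {n m : ℕ} (hAn : A.natDegree ≤ n) (hBm : B.natDegree ≤ m)
    (hA : IsCoprime (A.map (Int.castRingHom ℚ)) ((derivative A).map (Int.castRingHom ℚ)))
    (hB : IsCoprime (B.map (Int.castRingHom ℚ)) ((derivative B).map (Int.castRingHom ℚ)))
    (hA1 : 1 ≤ A.natDegree) (hB1 : 1 ≤ B.natDegree) (hA2 : A.eval 0 ≠ 0) (hA3 : A.eval 1 ≠ 0)
    (hB2 : B.eval 0 ≠ 0) (hB3 : B.eval 1 ≠ 0) (K : ℕ) {r s : ℝ} (hr : 0 < r) (hrs : r < s)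
    (hs : s ≤ 1) (N : ℕ) : ∃ y z : ℕ, N ≤ z ∧ 0 < y ∧ y < z ∧ Nat.Coprime y z ∧
      r < (y : ℝ) / z ∧ (y : ℝ) / z < s ∧ K * R (z - y) ≤ z - y ∧
      (hom B m ((z : ℤ) - y) z ≠ 0 →
        K * (R y * R (hom B m ((z : ℤ) - y) z).natAbs) ≤ (hom B m ((z : ℤ) - y) z).natAbs) ∧
      (hom A n ((z : ℤ) - y) z ≠ 0 →
        K * (R z * R (hom A n ((z : ℤ) - y) z).natAbs) ≤ (hom A n ((z : ℤ) - y) z).natAbs) := by
  -- the power of `2`
  obtain ⟨j, hj⟩ : ∃ j : ℕ, K ≤ 2 ^ j := ⟨K, Nat.lt_two_pow_self.le⟩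
  -- the first prime
  obtain ⟨p2, hp2, hp22, hroot2⟩ := exists_prime_root hB hB1 hB2 hB3 2
  obtain ⟨v2, hv2⟩ := exists_prim hp2 (by omega)
  have hodd2 : Nat.Coprime (2 ^ (j + 1)) (p2 ^ 2) :=
    Nat.Coprime.pow _ _ ((Nat.coprime_primes Nat.prime_two hp2).2 (by omega))
  obtain ⟨w2, hw2, hw21, hw22⟩ := exists_crt (a := v2) hodd2 (by positivity)
    (pow_ne_zero _ hp2.ne_zero)
  obtain ⟨hpw2, hv2'⟩ := hv2 w2 hw22
  obtain ⟨l2, hl2⟩ : ∃ l : ℕ, K * w2 ≤ p2 ^ l := by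
    refine ⟨K * w2, (Nat.lt_two_pow_self.le).trans (Nat.pow_le_pow_left hp2.two_le _)⟩
  obtain ⟨σ2, hσ2, hσ2', -⟩ := hroot2 (l2 + 1)
  obtain ⟨e2, he2⟩ := hv2' (l2 + 1) (1 - σ2) hσ2'
  -- the second prime
  obtain ⟨p1, hp1, hp12, hroot1⟩ := exists_prime_root hA hA1 hA2 hA3 (w2 + p2 + 2)
  obtain ⟨v1, hv1⟩ := exists_prim hp1 (by omega)
  have hcop1 : Nat.Coprime (2 ^ (j + 1) * p2 ^ (l2 + 1) * w2) (p1 ^ 2) := by
    refine Nat.Coprime.pow_right _ (Nat.Coprime.mul_left (Nat.Coprime.mul_left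
      (Nat.Coprime.pow_left _ ?_) (Nat.Coprime.pow_left _ ?_)) ?_)
    · exact (Nat.coprime_primes Nat.prime_two hp1).2 (by omega)
    · exact (Nat.coprime_primes hp2 hp1).2 (by omega)
    · exact ((hp1.coprime_iff_not_dvd).2 fun h => by
        have := Nat.le_of_dvd (by omega) h
        omega).symm
  have hmod0 : 2 ^ (j + 1) * p2 ^ (l2 + 1) * w2 ≠ 0 := by
    have := hp2.pos
    positivity
  obtain ⟨w1, hw1, hw11, hw12⟩ := exists_crt (a := v1) hcop1 hmod0 (pow_ne_zero _ hp1.ne_zero)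
  obtain ⟨hpw1, hv1'⟩ := hv1 w1 hw12
  obtain ⟨l1, hl1⟩ : ∃ l : ℕ, K * w1 ≤ p1 ^ l := by
    refine ⟨K * w1, (Nat.lt_two_pow_self.le).trans (Nat.pow_le_pow_left hp1.two_le _)⟩
  obtain ⟨σ1, hσ1, hσ1', -⟩ := hroot1 (l1 + 1)
  have hpi1 : Prime (p1 : ℤ) := Nat.prime_iff_prime_int.1 hp1
  have hpi2 : Prime (p2 : ℤ) := Nat.prime_iff_prime_int.1 hp2
  obtain ⟨a, b, hab⟩ := (hpi1.coprime_iff_not_dvd.2 hσ1').symm.pow_right (n := l1 + 1)
  have hpw21 : ¬ (p1 : ℤ) ∣ w2 := by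
    intro h
    have := Nat.le_of_dvd (by omega) (Int.natCast_dvd_natCast.1 h)
    omega
  have hpa : ¬ (p1 : ℤ) ∣ a * (w2 : ℤ) ^ e2 := by
    intro h
    rcases hpi1.dvd_or_dvd h with h | h
    · have h2 : (p1 : ℤ) ∣ 1 := by
        rw [← hab]
        exact dvd_add (h.mul_right _) ((dvd_pow_self _ (by omega)).mul_left _)
      exact hpi1.not_isUnit (isUnit_of_dvd_one h2)
    · exact hpw21 (hpi1.dvd_of_dvd_pow h)
  obtain ⟨e1, he1⟩ := hv1' (l1 + 1) (a * (w2 : ℤ) ^ e2) hpa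
  -- congruences for `w1`, `w2`
  have c1 : (w1 : ℤ) ≡ 1 [ZMOD (2 : ℤ) ^ (j + 1)] := by
    have : w1 ≡ 1 [MOD 2 ^ (j + 1)] := hw11.of_dvd ⟨p2 ^ (l2 + 1) * w2, by ring⟩
    have := (Int.natCast_modEq_iff).2 this
    exact_mod_cast this
  have c2 : (w1 : ℤ) ≡ 1 [ZMOD (p2 : ℤ) ^ (l2 + 1)] := by
    have : w1 ≡ 1 [MOD p2 ^ (l2 + 1)] := hw11.of_dvd ⟨2 ^ (j + 1) * w2, by ring⟩
    have := (Int.natCast_modEq_iff).2 this
    exact_mod_cast this
  have c3 : Nat.Coprime w1 w2 := by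
    have : w1 ≡ 1 [MOD w2] := hw11.of_dvd ⟨2 ^ (j + 1) * p2 ^ (l2 + 1), by ring⟩
    have h2 := Nat.ModEq.gcd_eq this
    rw [Nat.gcd_one_left] at h2
    exact h2
  have c4 : (w2 : ℤ) ≡ 1 [ZMOD (2 : ℤ) ^ (j + 1)] := by
    have := (Int.natCast_modEq_iff).2 hw21
    exact_mod_cast this
  -- the period
  obtain ⟨Φ, hΦ⟩ : ∃ Φ : ℕ, Φ = (p1 ^ (l1 + 1)).totient * (p2 ^ (l2 + 1)).totient := ⟨_, rfl⟩
  have hΦ0 : 0 < Φ := by
    rw [hΦ]
    exact Nat.mul_pos (Nat.totient_pos.2 (pow_pos hp1.pos _)) (Nat.totient_pos.2 (pow_pos hp2.pos _))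
  have per : ∀ {p : ℕ}, p.Prime → ∀ {w : ℕ}, ¬ (p : ℤ) ∣ w → ∀ {l : ℕ}, (p ^ l).totient ∣ Φ →
      ∀ i : ℕ, (w : ℤ) ^ (Φ * i) ≡ 1 [ZMOD (p : ℤ) ^ l] := by
    intro p hp w hw l hl i
    have h1 : Nat.Coprime w (p ^ l) := by
      refine Nat.Coprime.pow_right _ ?_
      refine ((hp.coprime_iff_not_dvd).2 fun h => hw (Int.natCast_dvd_natCast.2 h)).symm
    obtain ⟨c, hc⟩ := hl
    have h2 : w ^ (Φ * i) ≡ 1 [MOD p ^ l] := by
      rw [hc, mul_assoc, pow_mul]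
      have := (Nat.ModEq.pow_totient h1).pow (c * i)
      rwa [one_pow] at this
    have := (Int.natCast_modEq_iff).2 h2
    exact_mod_cast this
  -- the rotation
  obtain ⟨q, hq⟩ : ∃ q : ℝ, q = e2 * Real.log w2 - e1 * Real.log w1 := ⟨_, rfl⟩
  have hw1' : (1 : ℝ) < w1 := by exact_mod_cast (show 1 < w1 by omega)
  have hw2' : (1 : ℝ) < w2 := by exact_mod_cast (show 1 < w2 by omega)
  have hlog1 := Real.log_pos hw1'
  have hlog2 := Real.log_pos hw2'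
  have hΦ' : (0 : ℝ) < Φ := by exact_mod_cast hΦ0
  have hirr : Irrational ((Φ * Real.log w2) / (Φ * Real.log w1)) := by
    rw [mul_div_mul_left _ _ hΦ'.ne']
    exact irr_log hw2 hw1 c3.symm
  obtain ⟨i, i', hi, hi', hlow, hupp⟩ := rotation (by positivity) (by positivity) hirr
    (show Real.log r - q < Real.log s - q by
      have := Real.log_lt_log hr hrs
      linarith) (N + 1)
  obtain ⟨y, hy⟩ : ∃ y, y = w2 ^ (e2 + Φ * i) := ⟨_, rfl⟩
  obtain ⟨z, hz⟩ : ∃ z, z = w1 ^ (e1 + Φ * i') := ⟨_, rfl⟩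
  have hy0 : 0 < y := by rw [hy]; positivity
  have hz0 : 0 < z := by rw [hz]; positivity
  have hy0' : (0 : ℝ) < y := by exact_mod_cast hy0
  have hz0' : (0 : ℝ) < z := by exact_mod_cast hz0
  have hlogyz : Real.log ((y : ℝ) / z) = q + (i * (Φ * Real.log w2) - i' * (Φ * Real.log w1)) := by
    rw [Real.log_div hy0'.ne' hz0'.ne', hy, hz, hq]
    push_cast
    rw [Real.log_pow, Real.log_pow]
    push_cast
    ring
  have hyz1 : r < (y : ℝ) / z := by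
    rw [← Real.log_lt_log_iff hr (by positivity), hlogyz]
    linarith
  have hyz2 : (y : ℝ) / z < s := by
    rw [← Real.log_lt_log_iff (by positivity) (hr.trans hrs), hlogyz]
    linarith
  have hyz : y < z := by
    have h1 : (y : ℝ) / z < 1 := hyz2.trans_le hs
    rw [div_lt_one hz0'] at h1
    exact_mod_cast h1
  have hcop : Nat.Coprime y z := by
    rw [hy, hz]
    exact Nat.Coprime.pow _ _ c3.symm
  have hzN : N ≤ z := by
    have h1 : i' ≤ w1 ^ i' := (Nat.lt_pow_self (by omega)).le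
    have h2 : w1 ^ i' ≤ w1 ^ (e1 + Φ * i') := Nat.pow_le_pow_right (by omega) (by nlinarith)
    rw [hz]
    omega
  -- congruences
  have d1 : (2 : ℤ) ^ (j + 1) ∣ (z : ℤ) - y := by
    have h1 : (z : ℤ) ≡ 1 [ZMOD (2 : ℤ) ^ (j + 1)] := by
      rw [hz]
      push_cast
      have := c1.pow (e1 + Φ * i')
      rwa [one_pow] at this
    have h2 : (y : ℤ) ≡ 1 [ZMOD (2 : ℤ) ^ (j + 1)] := by
      rw [hy]
      push_cast
      have := c4.pow (e2 + Φ * i)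
      rwa [one_pow] at this
    exact Int.modEq_iff_dvd.1 (h2.trans h1.symm)
  have d2 : (p2 : ℤ) ^ (l2 + 1) ∣ ((z : ℤ) - y) - σ2 * z := by
    have h1 : (z : ℤ) ≡ 1 [ZMOD (p2 : ℤ) ^ (l2 + 1)] := by
      rw [hz]
      push_cast
      have := c2.pow (e1 + Φ * i')
      rwa [one_pow] at this
    have h2 : (y : ℤ) ≡ (1 - σ2) [ZMOD (p2 : ℤ) ^ (l2 + 1)] := by
      rw [hy]
      push_cast
      rw [pow_add (w2 : ℤ) e2]
      have h3 := (Int.modEq_iff_dvd.2 he2).symm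
      have h4 := h3.mul (per hp2 hpw2 (l := l2 + 1) (by rw [hΦ]; exact dvd_mul_left _ _) i)
      rwa [mul_one] at h4
    have h5 : (y : ℤ) ≡ (1 - σ2) * z [ZMOD (p2 : ℤ) ^ (l2 + 1)] := by
      have h6 := (h1.mul_left (1 - σ2))
      rw [mul_one] at h6
      exact h2.trans h6.symm
    have h7 := Int.modEq_iff_dvd.1 h5
    have e : ((z : ℤ) - y) - σ2 * z = (1 - σ2) * z - y := by ring
    rw [e]
    exact h7
  have d3 : (p1 : ℤ) ^ (l1 + 1) ∣ ((z : ℤ) - y) - σ1 * z := by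
    have h1 : (z : ℤ) ≡ a * (w2 : ℤ) ^ e2 [ZMOD (p1 : ℤ) ^ (l1 + 1)] := by
      rw [hz]
      push_cast
      rw [pow_add (w1 : ℤ) e1]
      have h3 := (Int.modEq_iff_dvd.2 he1).symm
      have h4 := h3.mul (per hp1 hpw1 (l := l1 + 1) (by rw [hΦ]; exact dvd_mul_right _ _) i')
      rwa [mul_one] at h4
    have h2 : (y : ℤ) ≡ (w2 : ℤ) ^ e2 [ZMOD (p1 : ℤ) ^ (l1 + 1)] := by
      rw [hy]
      push_cast
      rw [pow_add (w2 : ℤ) e2]
      have h4 := (per hp1 hpw21 (l := l1 + 1) (by rw [hΦ]; exact dvd_mul_right _ _) i).mul_left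
        ((w2 : ℤ) ^ e2)
      rwa [mul_one] at h4
    have h5 : (1 - σ1) * (z : ℤ) ≡ (w2 : ℤ) ^ e2 [ZMOD (p1 : ℤ) ^ (l1 + 1)] := by
      have h6 := h1.mul_left (1 - σ1)
      have h7 : (1 - σ1) * (a * (w2 : ℤ) ^ e2) ≡ (w2 : ℤ) ^ e2 [ZMOD (p1 : ℤ) ^ (l1 + 1)] := by
        refine (Int.modEq_iff_dvd.2 ⟨b * (w2 : ℤ) ^ e2, ?_⟩)
        linear_combination (-(w2 : ℤ) ^ e2) * hab
      exact h6.trans h7
    have h8 := Int.modEq_iff_dvd.1 (h2.trans h5.symm)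
    have e : ((z : ℤ) - y) - σ1 * z = (1 - σ1) * z - y := by ring
    rw [e]
    exact h8
  -- conclusion
  have hRy : R y ≤ w2 := by
    rw [hy]
    exact (R_pow _ _).trans (R_le (by omega))
  have hRz : R z ≤ w1 := by
    rw [hz]
    exact (R_pow _ _).trans (R_le (by omega))
  refine ⟨y, z, hzN, hy0, hyz, hcop, hyz1, hyz2, ?_, fun hne => ?_, fun hne => ?_⟩
  · have h1 : 2 ^ (j + 1) ∣ z - y := by
      have : ((z - y : ℕ) : ℤ) = (z : ℤ) - y := by push_cast [hyz.le]; ring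
      rw [← this] at d1
      exact_mod_cast d1
    have h2 := R_gain Nat.prime_two (by omega) h1 (by omega)
    rw [Nat.add_sub_cancel] at h2
    calc K * R (z - y) ≤ 2 ^ j * R (z - y) := Nat.mul_le_mul_right _ hj
      _ = R (z - y) * 2 ^ j := by ring
      _ ≤ _ := h2
  · have h1 : p2 ^ (l2 + 1) ∣ (hom B m ((z : ℤ) - y) z).natAbs := by
      have := hom_dvd hBm d2 hσ2
      have h2 : ((p2 ^ (l2 + 1) : ℕ) : ℤ) ∣ hom B m ((z : ℤ) - y) z := by exact_mod_cast this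
      exact Int.natCast_dvd.1 h2
    have h2 := R_gain hp2 (by omega) h1 (Int.natAbs_ne_zero.2 hne)
    rw [Nat.add_sub_cancel] at h2
    calc K * (R y * R (hom B m ((z : ℤ) - y) z).natAbs) ≤
          K * (w2 * R (hom B m ((z : ℤ) - y) z).natAbs) := by gcongr
      _ = K * w2 * R (hom B m ((z : ℤ) - y) z).natAbs := by ring
      _ ≤ p2 ^ l2 * R (hom B m ((z : ℤ) - y) z).natAbs := by gcongr
      _ = R (hom B m ((z : ℤ) - y) z).natAbs * p2 ^ l2 := by ring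
      _ ≤ _ := h2
  · have h1 : p1 ^ (l1 + 1) ∣ (hom A n ((z : ℤ) - y) z).natAbs := by
      have := hom_dvd hAn d3 hσ1
      have h2 : ((p1 ^ (l1 + 1) : ℕ) : ℤ) ∣ hom A n ((z : ℤ) - y) z := by exact_mod_cast this
      exact Int.natCast_dvd.1 h2
    have h2 := R_gain hp1 (by omega) h1 (Int.natAbs_ne_zero.2 hne)
    rw [Nat.add_sub_cancel] at h2
    calc K * (R z * R (hom A n ((z : ℤ) - y) z).natAbs) ≤
          K * (w1 * R (hom A n ((z : ℤ) - y) z).natAbs) := by gcongr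
      _ = K * w1 * R (hom A n ((z : ℤ) - y) z).natAbs := by ring
      _ ≤ p1 ^ l1 * R (hom A n ((z : ℤ) - y) z).natAbs := by gcongr
      _ = R (hom A n ((z : ℤ) - y) z).natAbs * p1 ^ l1 := by ring
      _ ≤ _ := h2

/-- A power `z` of a fixed multiple of `c₀` for which `z - 1` and the value of a given form at
`(1, z)` have small radicals. -/
theorem base2 {A : ℤ[X]} {n : ℕ} (hAn : A.natDegree ≤ n)
    (hA : IsCoprime (A.map (Int.castRingHom ℚ)) ((derivative A).map (Int.castRingHom ℚ)))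
    (hA1 : 1 ≤ A.natDegree) (hA2 : A.eval 0 ≠ 0) (hA3 : A.eval 1 ≠ 0) (K c₀ : ℕ) (hc₀ : 0 < c₀)
    (N : ℕ) : ∃ z : ℕ, N ≤ z ∧ 2 ≤ z ∧ c₀ ∣ z ∧ K * R (z - 1) ≤ z - 1 ∧
      (hom A n 1 z ≠ 0 → K * (R z * R (hom A n 1 z).natAbs) ≤ (hom A n 1 z).natAbs) := by
  obtain ⟨q, hq1, hq⟩ := Nat.exists_infinite_primes (c₀ + 1)
  obtain ⟨j, hj⟩ : ∃ j : ℕ, K ≤ q ^ j :=
    ⟨K, (Nat.lt_two_pow_self.le).trans (Nat.pow_le_pow_left hq.two_le _)⟩
  obtain ⟨p1, hp1, hp12, hroot1⟩ := exists_prime_root hA hA1 hA2 hA3 (c₀ + q + 2)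
  obtain ⟨v1, hv1⟩ := exists_prim hp1 (by omega)
  have hcq : Nat.Coprime c₀ (q ^ (j + 1)) := by
    refine Nat.Coprime.pow_right _ ?_
    exact ((hq.coprime_iff_not_dvd).2 fun h => by
      have := Nat.le_of_dvd hc₀ h
      omega).symm
  have hcop1 : Nat.Coprime (c₀ * q ^ (j + 1)) (p1 ^ 2) := by
    refine Nat.Coprime.pow_right _ (Nat.Coprime.mul_left ?_ (Nat.Coprime.pow_left _ ?_))
    · exact ((hp1.coprime_iff_not_dvd).2 fun h => by
        have := Nat.le_of_dvd hc₀ h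
        omega).symm
    · exact (Nat.coprime_primes hq hp1).2 (by omega)
  obtain ⟨w0, hw01, hw02⟩ := Nat.chineseRemainder hcq 0 1
  obtain ⟨k, hk1, hk2⟩ := Nat.chineseRemainder hcop1 w0 v1
  have hmod0 : 1 ≤ c₀ * q ^ (j + 1) * p1 ^ 2 := by
    have := hq.pos
    have := hp1.pos
    have : 0 < c₀ * q ^ (j + 1) * p1 ^ 2 := by positivity
    omega
  obtain ⟨w, hw⟩ : ∃ w, w = k + c₀ * q ^ (j + 1) * p1 ^ 2 * 2 := ⟨_, rfl⟩
  have hw2 : 2 ≤ w := by omega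
  have hwk : ∀ {M : ℕ}, M ∣ c₀ * q ^ (j + 1) * p1 ^ 2 → w ≡ k [MOD M] := by
    intro M hM
    rw [hw]
    have : k + c₀ * q ^ (j + 1) * p1 ^ 2 * 2 ≡ k + 0 [MOD M] :=
      Nat.ModEq.add_left _ ((Nat.modEq_zero_iff_dvd).2 (hM.mul_right _))
    exact this
  have hwc : c₀ ∣ w := by
    refine (Nat.modEq_zero_iff_dvd).1 ?_
    have h1 : w ≡ k [MOD c₀] := hwk ⟨q ^ (j + 1) * p1 ^ 2, by ring⟩
    have h2 : k ≡ w0 [MOD c₀] := hk1.of_dvd ⟨q ^ (j + 1), by ring⟩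
    exact h1.trans (h2.trans hw01)
  have hwq : w ≡ 1 [MOD q ^ (j + 1)] := by
    have h1 : w ≡ k [MOD q ^ (j + 1)] := hwk ⟨c₀ * p1 ^ 2, by ring⟩
    have h2 : k ≡ w0 [MOD q ^ (j + 1)] := hk1.of_dvd ⟨c₀, by ring⟩
    exact h1.trans (h2.trans hw02)
  have hwp : w ≡ v1 [MOD p1 ^ 2] := (hwk ⟨c₀ * q ^ (j + 1), by ring⟩).trans hk2
  obtain ⟨hpw1, hv1'⟩ := hv1 w hwp
  obtain ⟨l1, hl1⟩ : ∃ l : ℕ, K * w ≤ p1 ^ l := by
    refine ⟨K * w, (Nat.lt_two_pow_self.le).trans (Nat.pow_le_pow_left hp1.two_le _)⟩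
  obtain ⟨σ1, hσ1, -, hσ1'⟩ := hroot1 (l1 + 1)
  have hpi1 : Prime (p1 : ℤ) := Nat.prime_iff_prime_int.1 hp1
  obtain ⟨a, b, hab⟩ := (hpi1.coprime_iff_not_dvd.2 hσ1').symm.pow_right (n := l1 + 1)
  have hpa : ¬ (p1 : ℤ) ∣ a := by
    intro h
    have h2 : (p1 : ℤ) ∣ 1 := by
      rw [← hab]
      exact dvd_add (h.mul_right _) ((dvd_pow_self _ (by omega)).mul_left _)
    exact hpi1.not_isUnit (isUnit_of_dvd_one h2)
  obtain ⟨e1, he1⟩ := hv1' (l1 + 1) a hpa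
  obtain ⟨Φ, hΦ⟩ : ∃ Φ : ℕ, Φ = (p1 ^ (l1 + 1)).totient := ⟨_, rfl⟩
  have hΦ0 : 0 < Φ := by
    rw [hΦ]
    exact Nat.totient_pos.2 (pow_pos hp1.pos _)
  have per : (w : ℤ) ^ (Φ * (N + 1)) ≡ 1 [ZMOD (p1 : ℤ) ^ (l1 + 1)] := by
    have h1 : Nat.Coprime w (p1 ^ (l1 + 1)) := by
      refine Nat.Coprime.pow_right _ ?_
      refine ((hp1.coprime_iff_not_dvd).2 fun h => hpw1 (Int.natCast_dvd_natCast.2 h)).symm
    have h2 : w ^ (Φ * (N + 1)) ≡ 1 [MOD p1 ^ (l1 + 1)] := by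
      rw [hΦ, pow_mul]
      have := (Nat.ModEq.pow_totient h1).pow (N + 1)
      rwa [one_pow] at this
    have := (Int.natCast_modEq_iff).2 h2
    exact_mod_cast this
  obtain ⟨z, hz⟩ : ∃ z, z = w ^ (e1 + Φ * (N + 1)) := ⟨_, rfl⟩
  have hexp : N + 1 ≤ e1 + Φ * (N + 1) := by nlinarith
  have hzN : N + 2 ≤ z := by
    have h1 : N + 1 < w ^ (N + 1) := Nat.lt_pow_self (by omega)
    have h2 : w ^ (N + 1) ≤ w ^ (e1 + Φ * (N + 1)) := Nat.pow_le_pow_right (by omega) hexp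
    rw [hz]
    omega
  have hzc : c₀ ∣ z := by
    rw [hz]
    exact hwc.trans (dvd_pow_self _ (by omega))
  have d1 : q ^ (j + 1) ∣ z - 1 := by
    have h1 : z ≡ 1 [MOD q ^ (j + 1)] := by
      rw [hz]
      have := hwq.pow (e1 + Φ * (N + 1))
      rwa [one_pow] at this
    exact (Nat.modEq_iff_dvd' (by omega)).1 h1.symm
  have d3 : (p1 : ℤ) ^ (l1 + 1) ∣ 1 - σ1 * z := by
    have h1 : (z : ℤ) ≡ a [ZMOD (p1 : ℤ) ^ (l1 + 1)] := by
      rw [hz]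
      push_cast
      rw [pow_add (w : ℤ) e1]
      have h3 := (Int.modEq_iff_dvd.2 he1).symm
      have h4 := h3.mul per
      rwa [mul_one] at h4
    have h5 : σ1 * (z : ℤ) ≡ 1 [ZMOD (p1 : ℤ) ^ (l1 + 1)] := by
      have h6 := h1.mul_left σ1
      have h7 : σ1 * a ≡ 1 [ZMOD (p1 : ℤ) ^ (l1 + 1)] := by
        refine (Int.modEq_iff_dvd.2 ⟨b, ?_⟩)
        linear_combination (-1) * hab
      exact h6.trans h7
    exact Int.modEq_iff_dvd.1 h5
  have hRz : R z ≤ w := by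
    rw [hz]
    exact (R_pow _ _).trans (R_le (by omega))
  refine ⟨z, by omega, by omega, hzc, ?_, fun hne => ?_⟩
  · have h2 := R_gain hq (by omega) d1 (by omega)
    rw [Nat.add_sub_cancel] at h2
    calc K * R (z - 1) ≤ q ^ j * R (z - 1) := Nat.mul_le_mul_right _ hj
      _ = R (z - 1) * q ^ j := by ring
      _ ≤ _ := h2
  · have h1 : p1 ^ (l1 + 1) ∣ (hom A n 1 z).natAbs := by
      have := hom_dvd hAn d3 hσ1
      have h2 : ((p1 ^ (l1 + 1) : ℕ) : ℤ) ∣ hom A n 1 z := by exact_mod_cast this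
      exact Int.natCast_dvd.1 h2
    have h2 := R_gain hp1 (by omega) h1 (Int.natAbs_ne_zero.2 hne)
    rw [Nat.add_sub_cancel] at h2
    calc K * (R z * R (hom A n 1 z).natAbs) ≤ K * (w * R (hom A n 1 z).natAbs) := by gcongr
      _ = K * w * R (hom A n 1 z).natAbs := by ring
      _ ≤ p1 ^ l1 * R (hom A n 1 z).natAbs := by gcongr
      _ = R (hom A n 1 z).natAbs * p1 ^ l1 := by ring
      _ ≤ _ := h2

end H584.SH
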