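import Mathlib

/-!
# The Padé approximants of `(1 - X) ^ N`

For `n, m, k ≥ 0` there are integer polynomials `A`, `B`, `C` of degrees at most `n`, `m`, `k` with
`A - (1 - X) ^ (n + k + 1) * B = X ^ (n + m + 1) * C`. We construct them by applying the operator
`∏ (n + j - X d/dX)`, `1 ≤ j ≤ m`, to `(1 - X) ^ (n + m + k + 1)`.
-/

set_option autoImplicit false

open Polynomial Finset

namespace H584.SH

/-- the polynomials `∏_{j=1}^s (n + j - X d/dX) (1 - X)^D` -/
noncomputable def G (n D : ℕ) : ℕ → ℤ[X]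
  | 0 => (1 - X) ^ D
  | s + 1 => C ((n : ℤ) + s + 1) * G n D s - X * derivative (G n D s)

lemma coeff_one_sub_pow (D i : ℕ) : ((1 - X : ℤ[X]) ^ D).coeff i = (-1) ^ i * (D.choose i : ℤ) := by
  have h : (1 - X : ℤ[X]) ^ D = ((1 + X : ℤ[X]) ^ D).comp (-X) := by
    simp [sub_eq_add_neg]
  rw [h, ← neg_one_mul, ← C_1, ← C_neg, comp_C_mul_X_coeff, C_1, coeff_one_add_X_pow]
  ring

lemma coeff_G (n D s i : ℕ) : (G n D s).coeff i =
    (-1) ^ i * (D.choose i : ℤ) * ∏ j ∈ range s, ((n : ℤ) + j + 1 - i) := by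
  induction s with
  | zero => simp [G, coeff_one_sub_pow]
  | succ s ih =>
    have h : (X * derivative (G n D s)).coeff i = (i : ℤ) * (G n D s).coeff i := by
      cases i with
      | zero => simp
      | succ i =>
        rw [coeff_X_mul, coeff_derivative]
        push_cast
        ring
    rw [G, coeff_sub, coeff_C_mul, h, ih, prod_range_succ]
    ring

lemma dvd_G (n D s : ℕ) (hs : s ≤ D) : (1 - X : ℤ[X]) ^ (D - s) ∣ G n D s := by
  induction s with
  | zero => simp [G]
  | succ s ih =>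
    obtain ⟨h, hh⟩ := ih (by omega)
    obtain ⟨e, he⟩ : ∃ e, D - s = e + 1 := ⟨D - s - 1, by omega⟩
    have he' : D - (s + 1) = e := by omega
    rw [he'] 
    rw [he] at hh
    refine ⟨C ((n : ℤ) + s + 1) * (1 - X) * h + X * ((e + 1 : ℕ) : ℤ[X]) * h -
      X * (1 - X) * derivative h, ?_⟩
    rw [G, hh, derivative_mul, derivative_pow, derivative_sub, derivative_one, derivative_X]
    simp only [Nat.add_sub_cancel, Nat.cast_add, Nat.cast_one, C_add, C_1, map_natCast]
    ring

/-- the numerator and the denominators of the Padé approximation -/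
structure PD (n m k : ℕ) (A B C : ℤ[X]) : Prop where
  eq : A - (1 - X) ^ (n + k + 1) * B = X ^ (n + m + 1) * C
  degA : A.natDegree ≤ n
  degB : B.natDegree ≤ m
  degC : C.natDegree ≤ k
  A0 : 0 < A.eval 0
  B0 : 0 < B.eval 0
  C0 : C.eval 0 ≠ 0
  Cpos : Even n → 0 < C.eval 0
  der : 1 ≤ m → 0 < ((n : ℤ) + k + 1) * A.coeff 0 + A.coeff 1

lemma prod_shift (m : ℕ) : ∏ j ∈ range m, ((j : ℤ) + 1 - (m + 1 : ℕ)) = (-1) ^ m * (m.factorial : ℤ) := by
  induction m with
  | zero => simp
  | succ m ih =>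
    rw [prod_range_succ', Nat.factorial_succ]
    have h : ∀ j ∈ range m, (((j + 1 : ℕ) : ℤ) + 1 - (m + 1 + 1 : ℕ)) = ((j : ℤ) + 1 - (m + 1 : ℕ)) := by
      intro j _
      push_cast
      ring
    rw [prod_congr rfl h, ih]
    push_cast
    ring

theorem exists_pade (n m k : ℕ) : ∃ A B C : ℤ[X], PD n m k A B C := by
  obtain ⟨D, hD⟩ : ∃ D, D = n + m + k + 1 := ⟨_, rfl⟩
  obtain ⟨g, hg⟩ : ∃ g, g = G n D m := ⟨_, rfl⟩
  have hc : ∀ i, g.coeff i = (-1) ^ i * (D.choose i : ℤ) * ∏ j ∈ range m, ((n : ℤ) + j + 1 - i) :=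
    fun i => by rw [hg]; exact coeff_G n D m i
  obtain ⟨A, hA⟩ : ∃ A : ℤ[X], A = ∑ i ∈ range (n + 1), monomial i (g.coeff i) := ⟨_, rfl⟩
  have hAc : ∀ i, A.coeff i = if i < n + 1 then g.coeff i else 0 := by
    intro i
    rw [hA, finsetSum_coeff]
    simp only [coeff_monomial]
    rw [Finset.sum_ite_eq' (range (n + 1)) i fun j => g.coeff j]
    simp only [mem_range]
  have hdvd : (1 - X : ℤ[X]) ^ (n + k + 1) ∣ g := by
    have := dvd_G n D m (by omega)
    rw [show D - m = n + k + 1 by omega] at this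
    rw [hg]
    exact this
  obtain ⟨B, hB⟩ := hdvd
  have hX : (X : ℤ[X]) ^ (n + m + 1) ∣ A - g := by
    rw [X_pow_dvd_iff]
    intro i hi
    rw [coeff_sub, hAc]
    split_ifs with h
    · ring
    · rw [hc]
      have : ∏ j ∈ range m, ((n : ℤ) + j + 1 - i) = 0 := by
        refine prod_eq_zero (i := i - n - 1) (by rw [mem_range]; omega) ?_
        have : ((i - n - 1 : ℕ) : ℤ) = i - n - 1 := by omega
        rw [this]
        ring
      rw [this]
      ring
  obtain ⟨C', hC'⟩ := hX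
  have hgdeg : g.natDegree ≤ D := by
    rw [natDegree_le_iff_coeff_eq_zero]
    intro i hi
    rw [hc, Nat.choose_eq_zero_of_lt hi]
    simp
  have hAdeg : A.natDegree ≤ n := by
    rw [natDegree_le_iff_coeff_eq_zero]
    intro i hi
    rw [hAc, if_neg (by omega)]
  have hsub : (A - g).natDegree ≤ D := (natDegree_sub_le _ _).trans (max_le (by omega) hgdeg)
  have h1X : (1 - X : ℤ[X]) ≠ 0 := by
    intro h
    have := congrArg (eval 0) h
    simp at this
  have hdeg1X : (1 - X : ℤ[X]).natDegree = 1 := by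
    have h2 : (1 - X : ℤ[X]) = C (-1) * X + C 1 := by simp; ring
    rw [h2]
    exact natDegree_linear (by norm_num)
  have hg0 : g.coeff 0 = ∏ j ∈ range m, ((n : ℤ) + j + 1) := by
    rw [hc]
    simp
  have hg0pos : 0 < g.coeff 0 := by
    rw [hg0]
    exact prod_pos fun j _ => by positivity
  have hgne : g ≠ 0 := by
    intro h
    rw [h] at hg0pos
    simp at hg0pos
  have hBne : B ≠ 0 := by
    rintro rfl
    rw [mul_zero] at hB
    exact hgne hB
  have hC0 : C'.eval 0 = (-1) ^ n * ((D.choose (n + m + 1) : ℤ) * m.factorial) := by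
    have h1 : C'.eval 0 = (A - g).coeff (n + m + 1) := by
      rw [hC', ← coeff_zero_eq_eval_zero]
      have := coeff_X_pow_mul C' (n + m + 1) 0
      rw [zero_add] at this
      exact this.symm
    rw [h1, coeff_sub, hAc, if_neg (by omega), zero_sub, hc]
    have h2 : ∏ j ∈ range m, ((n : ℤ) + j + 1 - (n + m + 1 : ℕ)) = (-1) ^ m * (m.factorial : ℤ) := by
      rw [← prod_shift]
      refine prod_congr rfl fun j _ => ?_
      push_cast
      ring
    rw [h2]
    have h3 : -((-1 : ℤ) ^ (n + m + 1) * (D.choose (n + m + 1) : ℤ) * ((-1) ^ m * (m.factorial : ℤ))) =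
        (-1) ^ n * ((-1) ^ m * (-1) ^ m) * ((D.choose (n + m + 1) : ℤ) * m.factorial) := by
      ring
    rw [h3, ← mul_pow]
    simp only [neg_mul_neg, one_pow, mul_one]
  have hpos : 0 < (D.choose (n + m + 1) : ℤ) * m.factorial := by
    have h4 : 0 < D.choose (n + m + 1) := Nat.choose_pos (by omega)
    have h5 := Nat.factorial_pos m
    exact_mod_cast Nat.mul_pos h4 h5
  refine ⟨A, B, C', ⟨?_, hAdeg, ?_, ?_, ?_, ?_, ?_, ?_, ?_⟩⟩
  · rw [← hB, ← hC']
  · have := congrArg natDegree hB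
    rw [natDegree_mul (pow_ne_zero _ h1X) hBne, natDegree_pow, hdeg1X] at this
    omega
  · by_cases hC0 : C' = 0
    · rw [hC0]; simp
    · have := congrArg natDegree hC'
      rw [natDegree_mul (pow_ne_zero _ X_ne_zero) hC0, natDegree_pow, natDegree_X] at this
      omega
  · rw [← coeff_zero_eq_eval_zero, hAc, if_pos (by omega)]
    exact hg0pos
  · have := congrArg (eval 0) hB
    rw [← coeff_zero_eq_eval_zero, eval_mul] at this
    simp only [eval_pow, eval_sub, eval_one, eval_X, sub_zero, one_pow, one_mul] at this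
    rw [← this]
    exact hg0pos
  · rw [hC0]
    exact mul_ne_zero (pow_ne_zero _ (by norm_num)) hpos.ne'
  · intro hn
    rw [hC0, hn.neg_one_pow, one_mul]
    exact hpos
  · intro hm
    obtain ⟨m', rfl⟩ : ∃ m', m = m' + 1 := ⟨m - 1, by omega⟩
    have hA1 : A.coeff 1 = g.coeff 1 := by
      rw [hAc]
      split_ifs with h
      · rfl
      · have hn : n = 0 := by omega
        rw [hc, prod_eq_zero (i := 0) (by simp) (by rw [hn]; simp)]
        ring
    rw [hA1, hAc, if_pos (by omega), hc, hc]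
    have e1 : ∏ j ∈ range (m' + 1), ((n : ℤ) + j + 1 - (0 : ℕ)) =
        (∏ j ∈ range m', ((n : ℤ) + j + 1)) * (n + m' + 1) := by
      rw [prod_range_succ]
      simp
    have e2 : ∏ j ∈ range (m' + 1), ((n : ℤ) + j + 1 - (1 : ℕ)) =
        (∏ j ∈ range m', ((n : ℤ) + j + 1)) * n := by
      rw [prod_range_succ']
      congr 1
      · refine prod_congr rfl fun j _ => ?_
        push_cast
        ring
      · simp
    rw [e1, e2, hD, Nat.choose_zero_right, Nat.choose_one_right]
    have hP : 0 < ∏ j ∈ range m', ((n : ℤ) + j + 1) := prod_pos fun j _ => by positivity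
    have e3 : ((n : ℤ) + k + 1) * ((-1) ^ 0 * ((1 : ℕ) : ℤ) *
        ((∏ j ∈ range m', ((n : ℤ) + j + 1)) * (n + m' + 1))) +
        (-1) ^ 1 * ((n + (m' + 1) + k + 1 : ℕ) : ℤ) * ((∏ j ∈ range m', ((n : ℤ) + j + 1)) * n) =
        (∏ j ∈ range m', ((n : ℤ) + j + 1)) * (((m' : ℤ) + 1) * (k + 1)) := by
      push_cast
      ring
    rw [e3]
    positivity

end H584.SH
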