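import Mathlib

/-!
# The Wronskian of a Padé approximation of `(1 - X) ^ N`
-/

set_option autoImplicit false
set_option linter.unusedSectionVars false

open Polynomial Finset

namespace H584.SH

variable {K : Type*} [Field K] [CharZero K]

/-- the situation over a field -/
structure PK (n m k : ℕ) (A B C : K[X]) : Prop where
  eq : A - (1 - X) ^ (n + k + 1) * B = X ^ (n + m + 1) * C
  degA : A.natDegree ≤ n
  degB : B.natDegree ≤ m
  degC : C.natDegree ≤ k
  A0 : A.eval 0 ≠ 0
  C0 : C.eval 0 ≠ 0

variable {n m k : ℕ} {A B Q : K[X]}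

lemma one_sub_X_ne : (1 - X : K[X]) ≠ 0 := by
  intro h
  have := congrArg (eval 0) h
  simp at this

lemma natDegree_one_sub_X : (1 - X : K[X]).natDegree = 1 := by
  have h2 : (1 - X : K[X]) = C (-1) * X + C 1 := by simp; ring
  rw [h2]
  exact natDegree_linear (by norm_num)

lemma prime_one_sub_X : Prime (1 - X : K[X]) := by
  have h : (1 - X : K[X]) = -(X - C 1) := by rw [C_1]; ring
  rw [h]
  exact (prime_X_sub_C (1 : K)).neg

lemma PK.B0 (h : PK n m k A B Q) : B.eval 0 = A.eval 0 := by
  have h1 := congrArg (eval 0) h.eq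
  simp only [eval_sub, eval_mul, eval_pow, eval_one, eval_X, sub_zero, one_pow, one_mul] at h1
  rw [zero_pow (by omega), zero_mul] at h1
  exact (sub_eq_zero.1 h1).symm

/-- the Wronskian -/
lemma PK.wr (h : PK n m k A B Q) : A * derivative (X ^ (n + m + 1) * Q) -
    derivative A * (X ^ (n + m + 1) * Q) =
    C (((n + m + 1 : ℕ) : K) * A.eval 0 * Q.eval 0) * (X ^ (n + m) * (1 - X) ^ (n + k)) := by
  obtain ⟨F, hF⟩ : ∃ F : K[X], F = X ^ (n + m + 1) * Q := ⟨_, rfl⟩
  obtain ⟨W, hW⟩ : ∃ W : K[X], W = A * derivative F - derivative A * F := ⟨_, rfl⟩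
  have hF' : derivative F = X ^ (n + m) * (((n + m + 1 : ℕ) : K[X]) * Q + X * derivative Q) := by
    rw [hF, derivative_mul, derivative_X_pow]
    simp only [Nat.add_sub_cancel, map_natCast]
    ring
  have h1 : W = X ^ (n + m) * (A * (((n + m + 1 : ℕ) : K[X]) * Q + X * derivative Q) -
      derivative A * X * Q) := by
    rw [hW, hF', hF]
    ring
  have hA : A = F + (1 - X) ^ (n + k + 1) * B := by
    rw [hF, ← h.eq]
    ring
  have h2 : W = (1 - X) ^ (n + k) * ((1 - X) * B * derivative F +
      (((n + k + 1 : ℕ) : K[X]) * B - (1 - X) * derivative B) * F) := by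
    rw [hW]
    have hA' : derivative A = derivative F + (1 - X) ^ (n + k) *
        (-((n + k + 1 : ℕ) : K[X]) * B + (1 - X) * derivative B) := by
      rw [hA, derivative_add, derivative_mul, derivative_pow, derivative_sub, derivative_one,
        derivative_X]
      simp only [Nat.add_sub_cancel, map_natCast]
      ring
    rw [hA', hA]
    ring
  have hcop : IsCoprime ((X : K[X]) ^ (n + m)) ((1 - X) ^ (n + k)) :=
    IsCoprime.pow ⟨1, 1, by ring⟩
  obtain ⟨q, hq⟩ : X ^ (n + m) * (1 - X) ^ (n + k) ∣ W :=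
    hcop.mul_dvd ⟨_, h1⟩ ⟨_, h2⟩
  have hFd : F.natDegree ≤ n + m + k + 1 := by
    rw [hF]
    refine natDegree_mul_le.trans ?_
    have := natDegree_X_pow_le (R := K) (n + m + 1)
    have := h.degC
    omega
  have hWd : W.natDegree ≤ (n + m) + (n + k) := by
    rw [hW]
    refine (natDegree_sub_le _ _).trans (max_le ?_ ?_)
    · refine natDegree_mul_le.trans ?_
      have := natDegree_derivative_le F
      have := h.degA
      omega
    · by_cases hd : A.natDegree = 0
      · have : derivative A = 0 := derivative_of_natDegree_zero hd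
        rw [this]
        simp
      · refine natDegree_mul_le.trans ?_
        have := natDegree_derivative_le A
        have := h.degA
        omega
  have hne : (X ^ (n + m) * (1 - X) ^ (n + k) : K[X]) ≠ 0 :=
    mul_ne_zero (pow_ne_zero _ X_ne_zero) (pow_ne_zero _ one_sub_X_ne)
  have hq0 : q.natDegree = 0 := by
    by_cases hq1 : q = 0
    · rw [hq1]; simp
    · have h3 := congrArg natDegree hq
      rw [natDegree_mul hne hq1, natDegree_mul (pow_ne_zero _ X_ne_zero)
        (pow_ne_zero _ one_sub_X_ne), natDegree_X_pow, natDegree_pow, natDegree_one_sub_X] at h3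
      omega
  obtain ⟨c, hc⟩ : ∃ c : K, q = C c := ⟨_, eq_C_of_natDegree_eq_zero hq0⟩
  have h4 : (1 - X) ^ (n + k) * q = A * (((n + m + 1 : ℕ) : K[X]) * Q + X * derivative Q) -
      derivative A * X * Q := by
    have h5 : (X ^ (n + m) : K[X]) ≠ 0 := pow_ne_zero _ X_ne_zero
    apply mul_left_cancel₀ h5
    rw [← h1, hq]
    ring
  have h6 := congrArg (eval 0) h4
  simp only [hc, eval_sub, eval_mul, eval_pow, eval_one, eval_X, sub_zero, one_pow, one_mul,
    eval_C, eval_add, eval_natCast, zero_mul, add_zero, mul_zero] at h6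
  rw [← hF, ← hW, hq, hc, h6, mul_comm]
  congr 2
  ring

/-- the second form of the Wronskian -/
lemma PK.wr2 (h : PK n m k A B Q) :
    C (((n + m + 1 : ℕ) : K) * A.eval 0 * Q.eval 0) * X ^ (n + m) =
      (1 - X) * (B * derivative (X ^ (n + m + 1) * Q) - derivative B * (X ^ (n + m + 1) * Q)) +
        ((n + k + 1 : ℕ) : K[X]) * B * (X ^ (n + m + 1) * Q) := by
  have hw := h.wr
  obtain ⟨F, hF⟩ : ∃ F : K[X], F = X ^ (n + m + 1) * Q := ⟨_, rfl⟩
  rw [← hF] at hw ⊢
  have hA : A = F + (1 - X) ^ (n + k + 1) * B := by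
    rw [hF, ← h.eq]
    ring
  have hA' : derivative A = derivative F + (1 - X) ^ (n + k) *
      (-((n + k + 1 : ℕ) : K[X]) * B + (1 - X) * derivative B) := by
    rw [hA, derivative_add, derivative_mul, derivative_pow, derivative_sub, derivative_one,
      derivative_X]
    simp only [Nat.add_sub_cancel, map_natCast]
    ring
  apply mul_left_cancel₀ (pow_ne_zero (n + k) (one_sub_X_ne (K := K)))
  have e1 : (1 - X) ^ (n + k) * (C (((n + m + 1 : ℕ) : K) * A.eval 0 * Q.eval 0) * X ^ (n + m)) =
      C (((n + m + 1 : ℕ) : K) * A.eval 0 * Q.eval 0) * (X ^ (n + m) * (1 - X) ^ (n + k)) := by ring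
  rw [e1, ← hw, hA']
  conv_lhs => rw [show A * derivative F = (F + (1 - X) ^ (n + k + 1) * B) * derivative F by rw [← hA]]
  ring

lemma PK.c_ne (h : PK n m k A B Q) : ((n + m + 1 : ℕ) : K) * A.eval 0 * Q.eval 0 ≠ 0 :=
  mul_ne_zero (mul_ne_zero (Nat.cast_ne_zero.2 (by omega)) h.A0) h.C0

lemma PK.one (h : PK n m k A B Q) : B.eval 1 ≠ 0 ∧ A.eval 1 ≠ 0 := by
  have h1 := congrArg (eval 1) h.wr2
  simp only [eval_mul, eval_C, eval_pow, eval_X, one_pow, mul_one, eval_add, eval_sub, eval_one,
    sub_self, zero_mul, zero_add, one_mul, eval_natCast] at h1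
  have h2 := h.c_ne
  rw [h1] at h2
  have h3 : B.eval 1 ≠ 0 := right_ne_zero_of_mul (left_ne_zero_of_mul h2)
  have h4 : Q.eval 1 ≠ 0 := right_ne_zero_of_mul h2
  refine ⟨h3, ?_⟩
  have h5 := congrArg (eval 1) h.eq
  simp only [eval_mul, eval_pow, eval_X, one_pow, eval_sub, eval_one, sub_self, one_mul] at h5
  rw [zero_pow (by omega), zero_mul, sub_zero] at h5
  rw [h5]
  exact h4

/-- a prime which divides the Wronskian is `X` or `1 - X` -/
lemma dvd_cases {p : K[X]} (hp : Prime p) {c : K} (hc : c ≠ 0) {i j : ℕ}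
    (h : p ∣ C c * (X ^ i * (1 - X) ^ j)) : X ∣ p ∨ (1 - X) ∣ p := by
  rcases hp.dvd_or_dvd h with h1 | h1
  · exact absurd (isUnit_of_dvd_unit h1 (isUnit_C.2 (isUnit_iff_ne_zero.2 hc))) hp.not_isUnit
  · rcases hp.dvd_or_dvd h1 with h2 | h2
    · exact Or.inl ((hp.associated_of_dvd prime_X (hp.dvd_of_dvd_pow h2)).symm.dvd)
    · exact Or.inr ((hp.associated_of_dvd prime_one_sub_X (hp.dvd_of_dvd_pow h2)).symm.dvd)

lemma eval_zero_of_X_dvd {P : K[X]} (h : X ∣ P) : P.eval 0 = 0 := by
  obtain ⟨q, rfl⟩ := h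
  simp

lemma eval_one_of_dvd {P : K[X]} (h : (1 - X) ∣ P) : P.eval 1 = 0 := by
  obtain ⟨q, rfl⟩ := h
  simp

lemma PK.not_dvd (h : PK n m k A B Q) {p : K[X]} (hp : Prime p) (hA : p ∣ A)
    (hW : p ∣ A * derivative (X ^ (n + m + 1) * Q) - derivative A * (X ^ (n + m + 1) * Q)) :
    False := by
  rw [h.wr] at hW
  rcases dvd_cases hp h.c_ne hW with h1 | h1
  · exact h.A0 (eval_zero_of_X_dvd (h1.trans hA))
  · exact h.one.2 (eval_one_of_dvd (h1.trans hA))

lemma PK.cop (h : PK n m k A B Q) : IsCoprime A (X ^ (n + m + 1) * Q) := by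
  refine isCoprime_of_prime_dvd ?_ fun p hp hA hF => ?_
  · rintro ⟨h1, -⟩
    exact h.A0 (by rw [h1]; simp)
  · exact h.not_dvd hp hA (dvd_sub (hA.mul_right _) (hF.mul_left _))

lemma PK.sepA (h : PK n m k A B Q) : IsCoprime A (derivative A) := by
  refine isCoprime_of_prime_dvd ?_ fun p hp hA hF => ?_
  · rintro ⟨h1, -⟩
    exact h.A0 (by rw [h1]; simp)
  · exact h.not_dvd hp hA (dvd_sub (hA.mul_right _) (hF.mul_right _))

lemma PK.sepB (h : PK n m k A B Q) : IsCoprime B (derivative B) := by
  have hB0 : B.eval 0 ≠ 0 := by rw [h.B0]; exact h.A0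
  refine isCoprime_of_prime_dvd ?_ fun p hp hA hF => ?_
  · rintro ⟨h1, -⟩
    exact hB0 (by rw [h1]; simp)
  · have h1 : p ∣ C (((n + m + 1 : ℕ) : K) * A.eval 0 * Q.eval 0) * X ^ (n + m) := by
      rw [h.wr2]
      exact dvd_add ((dvd_sub (hA.mul_right _) (hF.mul_right _)).mul_left _)
        ((hA.mul_left _).mul_right _)
    rcases hp.dvd_or_dvd h1 with h2 | h2
    · exact absurd (isUnit_of_dvd_unit h2 (isUnit_C.2 (isUnit_iff_ne_zero.2 h.c_ne))) hp.not_isUnit
    · have h3 := (hp.associated_of_dvd prime_X (hp.dvd_of_dvd_pow h2)).symm.dvd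
      exact hB0 (eval_zero_of_X_dvd (h3.trans hA))

/-- the degree of `X ^ (n + m + 1) * C` is `n + m + k + 1`, the degree of `A` is `n`, the degree of
`B` is `m` -/
lemma PK.degs (h : PK n m k A B Q) : (X ^ (n + m + 1) * Q).natDegree = n + m + k + 1 ∧
    A.natDegree = n ∧ B.natDegree = m := by
  obtain ⟨F, hF⟩ : ∃ F : K[X], F = X ^ (n + m + 1) * Q := ⟨_, rfl⟩
  have hFd : F.natDegree ≤ n + m + k + 1 := by
    rw [hF]
    refine natDegree_mul_le.trans ?_
    have := natDegree_X_pow_le (R := K) (n + m + 1)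
    have := h.degC
    omega
  have hw := h.wr
  rw [← hF] at hw ⊢
  have hd : (A * derivative F - derivative A * F).natDegree = (n + m) + (n + k) := by
    rw [hw, natDegree_C_mul h.c_ne, natDegree_mul (pow_ne_zero _ X_ne_zero)
      (pow_ne_zero _ one_sub_X_ne), natDegree_X_pow, natDegree_pow, natDegree_one_sub_X]
    ring
  have h1 := natDegree_sub_le (A * derivative F) (derivative A * F)
  have h2 : (A * derivative F).natDegree ≤ A.natDegree + (F.natDegree - 1) :=
    natDegree_mul_le.trans (by have := natDegree_derivative_le F; omega)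
  have h3 : (derivative A * F).natDegree ≤ (A.natDegree - 1) + F.natDegree :=
    natDegree_mul_le.trans (by have := natDegree_derivative_le A; omega)
  have hAd := h.degA
  have hF1 : F.natDegree = n + m + k + 1 := by
    by_cases hA0 : A.natDegree = 0
    · have : derivative A = 0 := derivative_of_natDegree_zero hA0
      rw [this, zero_mul, sub_zero] at hd
      have : 1 ≤ F.natDegree := by
        by_contra hcon
        have h0 : F.natDegree = 0 := by omega
        have hk := h.c_ne
        have : derivative F = 0 := derivative_of_natDegree_zero h0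
        have hz : C (((n + m + 1 : ℕ) : K) * A.eval 0 * Q.eval 0) *
            (X ^ (n + m) * (1 - X) ^ (n + k)) = 0 := by
          rw [← hw, this, ‹derivative A = 0›]
          ring
        rcases mul_eq_zero.1 hz with h5 | h5
        · exact hk (C_eq_zero.1 h5)
        · exact (mul_ne_zero (pow_ne_zero _ X_ne_zero) (pow_ne_zero _ one_sub_X_ne)) h5
      omega
    · have : (A * derivative F - derivative A * F).natDegree ≤ max (A.natDegree + (F.natDegree - 1))
        ((A.natDegree - 1) + F.natDegree) := h1.trans (max_le_max h2 h3)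
      rcases le_max_iff.1 this with h5 | h5 <;> omega
  have hA1 : A.natDegree = n := by
    have : (A * derivative F - derivative A * F).natDegree ≤ max (A.natDegree + (F.natDegree - 1))
        ((A.natDegree - 1) + F.natDegree) := h1.trans (max_le_max h2 h3)
    rcases le_max_iff.1 this with h5 | h5
    · omega
    · by_cases hA0 : A.natDegree = 0
      · have : derivative A = 0 := derivative_of_natDegree_zero hA0
        rw [this, zero_mul, sub_zero] at hd
        omega
      · omega
  refine ⟨hF1, hA1, ?_⟩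
  have hBne : B ≠ 0 := by
    rintro rfl
    exact h.one.1 (by simp)
  have h6 : ((1 - X) ^ (n + k + 1) * B).natDegree = n + m + k + 1 := by
    have : (1 - X) ^ (n + k + 1) * B = A - F := by rw [hF, ← h.eq]; ring
    rw [this, natDegree_sub_eq_right_of_natDegree_lt (by omega)]
    exact hF1
  rw [natDegree_mul (pow_ne_zero _ one_sub_X_ne) hBne, natDegree_pow, natDegree_one_sub_X] at h6
  omega

end H584.SH
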