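import Mathlib
import Pool.Agent.H584.SH.Pade
import Pool.Agent.H584.SH.Wr

/-!
# Positivity of the Padé polynomials on `[0, 1]`
-/

set_option autoImplicit false

open Polynomial Finset

namespace H584.SH

lemma PD.toPK {n m k : ℕ} {A B Q : ℤ[X]} (h : PD n m k A B Q) (K : Type*) [Field K] [CharZero K] :
    PK n m k (A.map (Int.castRingHom K)) (B.map (Int.castRingHom K))
      (Q.map (Int.castRingHom K)) where
  eq := by
    have := congrArg (Polynomial.map (Int.castRingHom K)) h.eq
    simpa only [Polynomial.map_sub, Polynomial.map_mul, Polynomial.map_pow, Polynomial.map_one,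
      Polynomial.map_X] using this
  degA := natDegree_map_le.trans h.degA
  degB := natDegree_map_le.trans h.degB
  degC := natDegree_map_le.trans h.degC
  A0 := by
    have := eval_intCast_map (Int.castRingHom K) A 0
    rw [Int.cast_zero] at this
    rw [this]
    have h2 := h.A0.ne'
    simpa using h2
  C0 := by
    have := eval_intCast_map (Int.castRingHom K) Q 0
    rw [Int.cast_zero] at this
    rw [this]
    have h2 := h.C0
    simpa using h2


section Field

variable {K : Type*} [Field K] [CharZero K] {n m k : ℕ} {A B Q : K[X]}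

lemma PK.copAB (h : PK n m k A B Q) : IsCoprime A B := by
  have h1 := h.cop
  have h2 : X ^ (n + m + 1) * Q = A * 1 + -((1 - X) ^ (n + k + 1) * B) := by
    rw [← h.eq]
    ring
  rw [h2, IsCoprime.mul_add_left_right_iff] at h1
  exact (IsCoprime.neg_right_iff _ _ |>.1 h1).of_mul_right_right

/-- the solution is unique up to a factor -/
lemma PK.unique (h : PK n m k A B Q) {A' B' Q' : K[X]} (h' : PK n m k A' B' Q') :
    ∃ c : K, B' = C c * B := by
  have h1 : A * B' - A' * B = X ^ (n + m + 1) * (Q * B' - Q' * B) := by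
    have e1 := h.eq
    have e2 := h'.eq
    linear_combination B' * e1 - B * e2
  have h2 : A * B' - A' * B = 0 := by
    by_contra hne
    have h3 : (A * B' - A' * B).natDegree ≤ n + m :=
      (natDegree_sub_le _ _).trans (max_le
        (natDegree_mul_le.trans (add_le_add h.degA h'.degB))
        (natDegree_mul_le.trans (add_le_add h'.degA h.degB)))
    have h4 : X ^ (n + m + 1) ∣ A * B' - A' * B := ⟨_, h1⟩
    have h5 := natDegree_le_of_dvd h4 hne
    rw [natDegree_X_pow] at h5
    omega
  have h3 : B ∣ A * B' := ⟨A', by linear_combination h2⟩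
  obtain ⟨q, hq⟩ := h.copAB.symm.dvd_of_dvd_mul_left h3
  have hBne : B ≠ 0 := by
    rintro rfl
    exact h.one.1 (by simp)
  have hBne' : B' ≠ 0 := by
    rintro rfl
    exact h'.one.1 (by simp)
  have hq0 : q ≠ 0 := by
    rintro rfl
    exact hBne' (by rw [hq]; ring)
  have hd : q.natDegree = 0 := by
    have h4 := congrArg natDegree hq
    rw [natDegree_mul hBne hq0, h.degs.2.2, h'.degs.2.2] at h4
    omega
  refine ⟨q.coeff 0, ?_⟩
  rw [hq, eq_C_of_natDegree_eq_zero hd]
  simp [mul_comm]

/-- the derivative of `B` belongs to another solution -/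
lemma PK.deriv (h : PK n (m + 1) k A B Q)
    (hne : ((n : K) + k + 1) * A.coeff 0 + A.coeff 1 ≠ 0) :
    ∃ A' Q' : K[X], PK n m (k + 1) A' (derivative B) Q' ∧
      A'.eval 0 = ((n : K) + k + 1) * A.coeff 0 + A.coeff 1 := by
  obtain ⟨A', hA'⟩ : ∃ A' : K[X], A' = (1 - X) * derivative A + ((n + k + 1 : ℕ) : K[X]) * A :=
    ⟨_, rfl⟩
  obtain ⟨Q', hQ'⟩ : ∃ Q' : K[X], Q' = (1 - X) * (((n + m + 2 : ℕ) : K[X]) * Q + X * derivative Q) +
    ((n + k + 1 : ℕ) : K[X]) * X * Q := ⟨_, rfl⟩
  have hval : A'.eval 0 = ((n : K) + k + 1) * A.coeff 0 + A.coeff 1 := by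
    rw [hA', eval_add, eval_mul, eval_mul, eval_sub, eval_one, eval_X, eval_natCast,
      ← coeff_zero_eq_eval_zero, ← coeff_zero_eq_eval_zero, coeff_derivative]
    push_cast
    ring
  refine ⟨A', Q', ⟨?_, ?_, ?_, ?_, ?_, ?_⟩, hval⟩
  · have hA : A = X ^ (n + (m + 1) + 1) * Q + (1 - X) ^ (n + k + 1) * B := by
      rw [← h.eq]
      ring
    have hdA : derivative A = ((n + m + 2 : ℕ) : K[X]) * X ^ (n + m + 1) * Q +
        X ^ (n + m + 2) * derivative Q - ((n + k + 1 : ℕ) : K[X]) * (1 - X) ^ (n + k) * B +
        (1 - X) ^ (n + k + 1) * derivative B := by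
      rw [hA, derivative_add, derivative_mul, derivative_mul, derivative_X_pow, derivative_pow,
        derivative_sub, derivative_one, derivative_X]
      simp only [map_natCast]
      have e1 : n + (m + 1) + 1 = n + m + 2 := by ring
      have e2 : n + m + 2 - 1 = n + m + 1 := rfl
      have e3 : n + k + 1 - 1 = n + k := rfl
      rw [e1, e2, e3]
      ring
    rw [hA', hdA, hQ', hA]
    push_cast
    ring
  · rw [hA']
    refine (natDegree_add_le _ _).trans (max_le ?_ ?_)
    · by_cases hd : A.natDegree = 0
      · rw [derivative_of_natDegree_zero hd]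
        simp
      · refine natDegree_mul_le.trans ?_
        have := natDegree_derivative_le A
        have := h.degA
        have := natDegree_one_sub_X (K := K)
        omega
    · refine natDegree_mul_le.trans ?_
      have := h.degA
      have := natDegree_natCast (R := K) (n + k + 1)
      omega
  · have := natDegree_derivative_le B
    have := h.degB
    omega
  · rw [hQ']
    refine (natDegree_add_le _ _).trans (max_le ?_ ?_)
    · refine natDegree_mul_le.trans ?_
      rw [natDegree_one_sub_X]
      have h1 : (((n + m + 2 : ℕ) : K[X]) * Q + X * derivative Q).natDegree ≤ k := by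
        refine (natDegree_add_le _ _).trans (max_le ?_ ?_)
        · refine natDegree_mul_le.trans ?_
          have := h.degC
          have := natDegree_natCast (R := K) (n + m + 2)
          omega
        · by_cases hd : Q.natDegree = 0
          · rw [derivative_of_natDegree_zero hd]
            simp
          · refine natDegree_mul_le.trans ?_
            have := natDegree_derivative_le Q
            have := h.degC
            rw [natDegree_X]
            omega
      omega
    · refine natDegree_mul_le.trans ?_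
      have h2 := natDegree_mul_le (p := ((n + k + 1 : ℕ) : K[X])) (q := X)
      rw [natDegree_natCast, natDegree_X] at h2
      have := h.degC
      omega
  · rw [hval]
    exact hne
  · rw [hQ', eval_add, eval_mul, eval_add, eval_mul, eval_mul, eval_mul, eval_mul, eval_sub,
      eval_one, eval_X, eval_natCast, eval_natCast]
    have h3 : ((n + m + 2 : ℕ) : K) ≠ 0 := Nat.cast_ne_zero.2 (by omega)
    push_cast at h3
    simpa using ⟨h3, h.C0⟩

/-- the symmetry `X ↦ 1 - X` -/
lemma PK.swap (h : PK n m k A B Q) :
    PK n k m (A.comp (1 - X)) (Q.comp (1 - X)) (B.comp (1 - X)) where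
  eq := by
    have h1 := congrArg (fun P : K[X] => P.comp (1 - X)) h.eq
    simp only [sub_comp, mul_comp, pow_comp, one_comp, X_comp] at h1
    have e : (1 - (1 - X) : K[X]) = X := by ring
    rw [e] at h1
    linear_combination h1
  degA := by
    rw [natDegree_comp, natDegree_one_sub_X, mul_one]
    exact h.degA
  degB := by
    rw [natDegree_comp, natDegree_one_sub_X, mul_one]
    exact h.degC
  degC := by
    rw [natDegree_comp, natDegree_one_sub_X, mul_one]
    exact h.degB
  A0 := by
    rw [eval_comp]
    simpa using h.one.2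
  C0 := by
    rw [eval_comp]
    simpa using h.one.1

end Field

/-- the coefficients of `B` have one sign -/
theorem pos_coeff (m : ℕ) : ∀ (n k : ℕ) (A B Q : ℝ[X]), PK n m k A B Q → 0 < B.eval 0 →
    ∀ j, 0 ≤ B.coeff j := by
  induction m with
  | zero =>
    intro n k A B Q h hB j
    cases j with
    | zero => rw [coeff_zero_eq_eval_zero]; exact hB.le
    | succ j =>
      rw [coeff_eq_zero_of_natDegree_lt (by have := h.degB; omega)]
  | succ m ih =>
    intro n k A B Q h hB j
    obtain ⟨A₁, B₁, Q₁, h₁⟩ := exists_pade n (m + 1) k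
    have h₂ := h₁.toPK ℝ
    obtain ⟨c, hc⟩ := h₂.unique h
    have hB₁ : 0 < (B₁.map (Int.castRingHom ℝ)).eval 0 := by
      have := eval_intCast_map (Int.castRingHom ℝ) B₁ 0
      rw [Int.cast_zero] at this
      rw [this]
      have h3 := h₁.B0
      simpa using h3
    have hc0 : 0 < c := by
      rw [hc, eval_mul, eval_C] at hB
      exact (pos_iff_pos_of_mul_pos hB).2 hB₁
    have hder : 0 < ((n : ℝ) + k + 1) * (A₁.map (Int.castRingHom ℝ)).coeff 0 +
        (A₁.map (Int.castRingHom ℝ)).coeff 1 := by
      rw [coeff_map, coeff_map]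
      have h3 := h₁.der (by omega)
      have h4 : (0 : ℝ) < ((((n : ℤ) + k + 1) * A₁.coeff 0 + A₁.coeff 1 : ℤ) : ℝ) := by
        exact_mod_cast h3
      push_cast at h4
      simpa using h4
    obtain ⟨A₂, Q₂, h₃, hval⟩ := h₂.deriv hder.ne'
    have hpos := ih n (k + 1) A₂ _ Q₂ h₃ (by rw [h₃.B0, hval]; exact hder)
    rw [hc, coeff_C_mul]
    refine mul_nonneg hc0.le ?_
    cases j with
    | zero => rw [coeff_zero_eq_eval_zero]; exact hB₁.le
    | succ j =>
      have h5 := hpos j
      rw [coeff_derivative] at h5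
      exact nonneg_of_mul_nonneg_left h5 (by positivity)

lemma eval_ge {P : ℝ[X]} (hP : ∀ j, 0 ≤ P.coeff j) {t : ℝ} (ht : 0 ≤ t) : P.eval 0 ≤ P.eval t := by
  rw [← coeff_zero_eq_eval_zero, eval_eq_sum_range, sum_range_succ']
  have : 0 ≤ ∑ i ∈ range P.natDegree, P.coeff (i + 1) * t ^ (i + 1) :=
    sum_nonneg fun i _ => mul_nonneg (hP _) (by positivity)
  simp only [pow_zero, mul_one]
  linarith

/-- the polynomials are positive on `[0, 1]` -/
theorem pos_all {n m k : ℕ} {A B Q : ℝ[X]} (h : PK n m k A B Q) (hB : 0 < B.eval 0)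
    (hQ : 0 < Q.eval 0) {t : ℝ} (h0 : 0 ≤ t) (h1 : t ≤ 1) :
    0 < A.eval t ∧ 0 < B.eval t ∧ 0 < Q.eval t := by
  have hBt : 0 < B.eval t := hB.trans_le (eval_ge (pos_coeff m n k A B Q h hB) h0)
  have hQt : 0 < Q.eval t := by
    have hs := h.swap
    have e : ∀ s : ℝ, (Q.comp (1 - X)).eval s = Q.eval (1 - s) := fun s => by
      rw [eval_comp]
      simp
    have hne : (Q.comp (1 - X)).eval 0 ≠ 0 := by rw [hs.B0]; exact hs.A0
    rcases lt_or_gt_of_ne hne with hlt | hgt
    · -- the negative of the solution
      have hs' : PK n k m (-(A.comp (1 - X))) (-(Q.comp (1 - X))) (-(B.comp (1 - X))) :=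
        ⟨by linear_combination (-1) * hs.eq, by rw [natDegree_neg]; exact hs.degA,
          by rw [natDegree_neg]; exact hs.degB, by rw [natDegree_neg]; exact hs.degC,
          by rw [eval_neg]; exact neg_ne_zero.2 hs.A0, by rw [eval_neg]; exact neg_ne_zero.2 hs.C0⟩
      have h2 := pos_coeff k n m _ _ _ hs' (by rw [eval_neg]; linarith)
      have h3 := eval_ge h2 zero_le_one
      rw [eval_neg, eval_neg, e, e] at h3
      rw [e] at hlt
      simp only [sub_zero, sub_self] at h3 hlt
      linarith
    · have h2 := pos_coeff k n m _ _ _ hs hgt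
      have h3 := eval_ge h2 (show 0 ≤ 1 - t by linarith)
      rw [e] at h3 hgt
      rw [e] at h3
      have e2 : 1 - (1 - t) = t := by ring
      rw [e2] at h3
      linarith
  refine ⟨?_, hBt, hQt⟩
  have hA : A.eval t = (1 - t) ^ (n + k + 1) * B.eval t + t ^ (n + m + 1) * Q.eval t := by
    have h2 := congrArg (eval t) h.eq
    simp only [eval_sub, eval_mul, eval_pow, eval_one, eval_X] at h2
    linarith
  rw [hA]
  rcases eq_or_lt_of_le h0 with h2 | h2
  · rw [← h2]
    have : (0 : ℝ) ^ (n + m + 1) = 0 := zero_pow (by omega)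
    rw [this]
    simp only [sub_zero, one_pow, one_mul, zero_mul, add_zero]
    exact hB
  · have h3 : 0 < t ^ (n + m + 1) * Q.eval t := by positivity
    have h4 : 0 ≤ (1 - t) ^ (n + k + 1) * B.eval t :=
      mul_nonneg (pow_nonneg (by linarith) _) hBt.le
    linarith

end H584.SH
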