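import Mathlib
import Pool.Agent.H584.SH.Pos
import Pool.Graph.R_pool_sql_team_seeded_3997aac3.Q265.LC.L

/-!
# The Padé approximations give Belyi maps
-/

set_option autoImplicit false

open Polynomial Finset

namespace H584.SH

theorem PK.bel {n m k : ℕ} {A B Q : ℚ[X]} (h : PK n m k A B Q) :
    Q265.LC.Bel (X ^ (n + m + 1) * Q) A (n + m + k + 1) := by
  obtain ⟨hF, hA, hB⟩ := h.degs
  have hB0 : B ≠ 0 := by
    rintro rfl
    exact h.one.1 (by simp)
  have hA0 : A ≠ 0 := by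
    rintro rfl
    exact h.A0 (by simp)
  have hQ0 : Q ≠ 0 := by
    rintro rfl
    exact h.C0 (by simp)
  have hFA : X ^ (n + m + 1) * Q - A = -((1 - X) ^ (n + k + 1) * B) := by
    rw [← h.eq]
    ring
  have hne : X ^ (n + m + 1) * Q * A * (X ^ (n + m + 1) * Q - A) ≠ 0 := by
    rw [hFA]
    exact mul_ne_zero (mul_ne_zero (mul_ne_zero (pow_ne_zero _ X_ne_zero) hQ0) hA0)
      (neg_ne_zero.2 (mul_ne_zero (pow_ne_zero _ one_sub_X_ne) hB0))
  refine ⟨by omega, h.cop.symm, hF.le, by omega, Or.inl hF, ?_, ?_, ?_, ?_⟩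
  · exact ((dvd_pow_self X (by omega)).mul_right _).mul_right _ |>.mul_right _
  · rw [hFA]
    refine Dvd.dvd.mul_left ?_ _
    refine ((Dvd.intro_left (-1) ?_ : (X - 1 : ℚ[X]) ∣ (1 - X)).trans
      (dvd_pow_self _ (by omega))).mul_right _ |>.neg_right
    ring
  · refine lt_of_le_of_lt natDegree_mul_le ?_
    have h1 : (X ^ (n + m + 1) * Q * A).natDegree ≤ (n + m + k + 1) + n := by
      refine natDegree_mul_le.trans ?_
      omega
    have h2 : (X ^ (n + m + 1) * Q - A).natDegree ≤ n + m + k + 1 :=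
      (natDegree_sub_le _ _).trans (max_le hF.le (by omega))
    omega
  · refine ⟨Q * A * B, n + m + k + 1, ?_, mul_ne_zero (mul_ne_zero hQ0 hA0) hB0, hne, ?_⟩
    · refine natDegree_mul_le.trans ?_
      have := natDegree_mul_le (p := Q) (q := A)
      have := h.degC
      omega
    · rw [hFA]
      have e1 : X ^ (n + m + 1) * Q * A * -((1 - X) ^ (n + k + 1) * B) =
          -((X ^ (n + m + 1) * (1 - X) ^ (n + k + 1)) * (Q * A * B)) := by ring
      rw [e1, mul_pow, mul_pow]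
      refine (mul_dvd_mul (mul_dvd_mul (pow_dvd_pow _ (by omega)) ?_)
        (dvd_pow_self _ (by omega))).neg_left
      have e2 : (1 - X : ℚ[X]) = (-1) * (X - 1) := by ring
      rw [e2, mul_pow]
      refine (Dvd.dvd.trans ?_ (pow_dvd_pow (X - 1 : ℚ[X]) (show n + k + 1 ≤ n + m + k + 1 by omega)))
      refine ⟨(-1) ^ (n + k + 1), ?_⟩
      have e3 : ((-1 : ℚ[X]) ^ (n + k + 1)) * ((-1) ^ (n + k + 1)) = 1 := by
        rw [← mul_pow]; simp
      calc (X - 1 : ℚ[X]) ^ (n + k + 1) = ((-1 : ℚ[X]) ^ (n + k + 1) * ((-1) ^ (n + k + 1))) *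
            (X - 1) ^ (n + k + 1) := by rw [e3, one_mul]
        _ = _ := by ring

end H584.SH
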