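import Mathlib
import Pool.Agent.H584.SH.Base
import Pool.Agent.H584.SH.Bely

/-!
# Triples on the boundary plane of Mazur's question
-/

set_option autoImplicit false

open Polynomial Finset

namespace H584.SH

/-- the value of an integer polynomial at a rational number, in `ℝ` -/
lemma eval_cast (P : ℤ[X]) (t : ℚ) : (((P.map (Int.castRingHom ℚ)).eval t : ℚ) : ℝ) =
    (P.map (Int.castRingHom ℝ)).eval (t : ℝ) := by
  rw [eval_map, eval_map, eval₂_eq_sum_range, eval₂_eq_sum_range]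
  push_cast
  simp

lemma rat_triple {s : ℚ} {a' c' : ℕ} (hc : 0 < c') (hs : s = (a' : ℚ) / c')
    (h0 : 0 < s) : s.num.natAbs ∣ a' ∧ s.den ∣ c' ∧ ∃ g : ℕ, 0 < g ∧ a' = s.num.natAbs * g ∧
      c' = s.den * g := by
  have hc0 : (c' : ℚ) ≠ 0 := by exact_mod_cast hc.ne'
  have hnum : 0 < s.num := Rat.num_pos.2 h0
  obtain ⟨a, ha⟩ := Int.eq_ofNat_of_zero_le hnum.le
  have h1 : s * c' = a' := by rw [hs]; field_simp
  have h2 : (s.num : ℚ) * c' = a' * s.den := by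
    have h3 : (s.num : ℚ) = s * s.den := (Rat.mul_den_eq_num s).symm
    rw [h3, ← h1]
    ring
  rw [ha] at h2
  have h3 : a * c' = a' * s.den := by exact_mod_cast h2
  have hcop : Nat.Coprime a s.den := by
    have := s.reduced
    rw [ha] at this
    exact this
  have h4 : s.den ∣ c' := by
    have : s.den ∣ a * c' := ⟨a', by rw [h3]; ring⟩
    exact hcop.symm.dvd_of_dvd_mul_left this
  obtain ⟨g, hg⟩ := h4
  have hg0 : 0 < g := by
    rcases Nat.eq_zero_or_pos g with h | h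
    · rw [h, mul_zero] at hg
      omega
    · exact h
  have h5 : a' = a * g := by
    rw [hg] at h3
    have h6 : s.den * (a * g) = s.den * a' := by
      calc s.den * (a * g) = a * (s.den * g) := by ring
        _ = a' * s.den := h3
        _ = _ := by ring
    exact (Nat.eq_of_mul_eq_mul_left s.pos h6).symm
  have h7 : s.num.natAbs = a := by rw [ha]; rfl
  rw [h7]
  exact ⟨⟨g, h5⟩, ⟨g, hg⟩, g, hg0, h5, hg⟩

/-- the triple defined by coprime `y < z` -/
theorem triple {n m k : ℕ} {A B Q : ℤ[X]} (h : PD n m k A B Q) (hn : Even n) {y z : ℕ}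
    (hy : 0 < y) (hyz : y < z) : ∃ (t : ℚ) (s : ℚ) (a b c : ℕ), t = ((z - y : ℕ) : ℚ) / z ∧
      s = ((X ^ (n + m + 1) * Q.map (Int.castRingHom ℚ)).eval t) /
        ((A.map (Int.castRingHom ℚ)).eval t) ∧ 0 < t ∧ t < 1 ∧
      0 < s ∧ s < 1 ∧ a = s.num.natAbs ∧ c = s.den ∧ a + b = c ∧ 0 < a ∧ 0 < b ∧ Nat.Coprime a b ∧
      (0 < hom A n ((z : ℤ) - y) z ∧ 0 < hom B m ((z : ℤ) - y) z ∧
        0 < hom Q k ((z : ℤ) - y) z) ∧
      R a ≤ R (z - y) * R (hom Q k ((z : ℤ) - y) z).natAbs ∧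
      R b ≤ R y * R (hom B m ((z : ℤ) - y) z).natAbs ∧
      R c ≤ R z * R (hom A n ((z : ℤ) - y) z).natAbs ∧
      s = (((z - y) ^ (n + m + 1) * (hom Q k ((z : ℤ) - y) z).natAbs : ℕ) : ℚ) /
        ((z ^ (m + k + 1) * (hom A n ((z : ℤ) - y) z).natAbs : ℕ) : ℚ) := by
  obtain ⟨x, hx⟩ : ∃ x, x = z - y := ⟨_, rfl⟩
  have hx0 : 0 < x := by omega
  have hz0 : 0 < z := by omega
  have hxz : x < z := by omega
  have hxi : (z : ℤ) - y = x := by rw [hx]; push_cast [hyz.le]; ring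
  have hyi : (y : ℤ) = z - x := by rw [← hxi]; ring
  rw [hxi, ← hx]
  have hz0' : (z : ℤ) ≠ 0 := by exact_mod_cast hz0.ne'
  have hzq : (0 : ℚ) < z := by exact_mod_cast hz0
  have hxq : (0 : ℚ) < x := by exact_mod_cast hx0
  obtain ⟨t, ht⟩ : ∃ t : ℚ, t = (x : ℚ) / z := ⟨_, rfl⟩
  have ht0 : 0 < t := by rw [ht]; positivity
  have ht1 : t < 1 := by
    rw [ht, div_lt_one hzq]
    exact_mod_cast hxz
  have hpos := pos_all (t := (t : ℝ)) (h.toPK ℝ) (by
    have := eval_intCast_map (Int.castRingHom ℝ) B 0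
    rw [Int.cast_zero] at this
    rw [this]
    have h3 := h.B0
    simpa using h3) (by
    have := eval_intCast_map (Int.castRingHom ℝ) Q 0
    rw [Int.cast_zero] at this
    rw [this]
    have h3 := h.Cpos hn
    simpa using h3) (by exact_mod_cast ht0.le) (by exact_mod_cast ht1.le)
  rw [← eval_cast, ← eval_cast, ← eval_cast] at hpos
  obtain ⟨pA, pB, pQ⟩ := hpos
  have pA : 0 < (A.map (Int.castRingHom ℚ)).eval t := by exact_mod_cast pA
  have pB : 0 < (B.map (Int.castRingHom ℚ)).eval t := by exact_mod_cast pB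
  have pQ : 0 < (Q.map (Int.castRingHom ℚ)).eval t := by exact_mod_cast pQ
  have eA := hom_eq (K := ℚ) h.degA (x := x) hz0'
  have eB := hom_eq (K := ℚ) h.degB (x := x) hz0'
  have eQ := hom_eq (K := ℚ) h.degC (x := x) hz0'
  rw [Int.cast_natCast, Int.cast_natCast, ← ht] at eA eB eQ
  have qA : 0 < hom A n x z := by
    have : (0 : ℚ) < hom A n x z := by rw [eA]; positivity
    exact_mod_cast this
  have qB : 0 < hom B m x z := by
    have : (0 : ℚ) < hom B m x z := by rw [eB]; positivity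
    exact_mod_cast this
  have qQ : 0 < hom Q k x z := by
    have : (0 : ℚ) < hom Q k x z := by rw [eQ]; positivity
    exact_mod_cast this
  obtain ⟨hA, hhA⟩ := Int.eq_ofNat_of_zero_le qA.le
  obtain ⟨hB, hhB⟩ := Int.eq_ofNat_of_zero_le qB.le
  obtain ⟨hQ, hhQ⟩ := Int.eq_ofNat_of_zero_le qQ.le
  rw [hhA, hhB, hhQ]
  rw [hhA] at qA eA
  rw [hhB] at qB eB
  rw [hhQ] at qQ eQ
  rw [Int.cast_natCast] at eA eB eQ
  simp only [Int.natAbs_natCast]
  have qA' : 0 < hA := by exact_mod_cast qA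
  have qB' : 0 < hB := by exact_mod_cast qB
  have qQ' : 0 < hQ := by exact_mod_cast qQ
  -- the relation
  have hrel := congrArg (fun P : ℤ[X] => (P.map (Int.castRingHom ℚ)).eval t) h.eq
  simp only [Polynomial.map_sub, Polynomial.map_mul, Polynomial.map_pow, Polynomial.map_one,
    Polynomial.map_X, eval_sub, eval_mul, eval_pow, eval_one, eval_X] at hrel
  have h1t : 1 - t = (y : ℚ) / z := by
    have : (y : ℚ) = z - x := by exact_mod_cast hyi
    rw [ht, this]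
    field_simp
  obtain ⟨s, hs⟩ : ∃ s : ℚ, s = ((X ^ (n + m + 1) * Q.map (Int.castRingHom ℚ)).eval t) /
        ((A.map (Int.castRingHom ℚ)).eval t) := ⟨_, rfl⟩
  have hs' : s = ((x ^ (n + m + 1) * hQ : ℕ) : ℚ) / ((z ^ (m + k + 1) * hA : ℕ) : ℚ) := by
    rw [hs, eval_mul, eval_pow, eval_X]
    push_cast
    rw [eA, eQ, ht, div_pow]
    rw [← ht]
    have e1 : (z : ℚ) ^ (n + m + 1) * z ^ k = z ^ (m + k + 1) * z ^ n := by ring
    have hz1 : (z : ℚ) ^ (n + m + 1) ≠ 0 := by positivity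
    have hz2 : (z : ℚ) ^ (m + k + 1) ≠ 0 := by positivity
    have hz3 : (z : ℚ) ^ n ≠ 0 := by positivity
    rw [div_eq_div_iff pA.ne' (mul_ne_zero hz2 (mul_ne_zero hz3 pA.ne'))]
    rw [div_mul_eq_mul_div, div_mul_eq_mul_div, div_eq_iff hz1]
    linear_combination (-(x : ℚ) ^ (n + m + 1) * (Q.map (Int.castRingHom ℚ)).eval t *
      (A.map (Int.castRingHom ℚ)).eval t) * e1
  have hsum : x ^ (n + m + 1) * hQ + y ^ (n + k + 1) * hB = z ^ (m + k + 1) * hA := by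
    have : ((x ^ (n + m + 1) * hQ + y ^ (n + k + 1) * hB : ℕ) : ℚ) =
        ((z ^ (m + k + 1) * hA : ℕ) : ℚ) := by
      push_cast
      rw [eA, eB, eQ]
      have e1 : (x : ℚ) = t * z := by rw [ht]; field_simp
      have e2 : (y : ℚ) = (1 - t) * z := by rw [h1t]; field_simp
      rw [e1, e2, mul_pow, mul_pow]
      linear_combination (-(z : ℚ) ^ (n + m + k + 1)) * hrel
    exact_mod_cast this
  have hc' : 0 < z ^ (m + k + 1) * hA := by positivity
  have ha' : 0 < x ^ (n + m + 1) * hQ := by positivity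
  have hb' : 0 < y ^ (n + k + 1) * hB := by positivity
  have hs0 : 0 < s := by
    rw [hs']
    have h1 : (0 : ℚ) < ((x ^ (n + m + 1) * hQ : ℕ) : ℚ) := by exact_mod_cast ha'
    have h2 : (0 : ℚ) < ((z ^ (m + k + 1) * hA : ℕ) : ℚ) := by exact_mod_cast hc'
    positivity
  have hs1 : s < 1 := by
    rw [hs', div_lt_one (by exact_mod_cast hc')]
    exact_mod_cast (by omega : x ^ (n + m + 1) * hQ < z ^ (m + k + 1) * hA)
  obtain ⟨d1, d2, g, hg, e1, e2⟩ := rat_triple hc' hs' hs0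
  have hnum : 0 < s.num := Rat.num_pos.2 hs0
  have hlt : s.num.natAbs < s.den := by
    have h1 := (Rat.num_lt_denom_iff).2 hs1
    omega
  have e3 : y ^ (n + k + 1) * hB = (s.den - s.num.natAbs) * g := by
    rw [Nat.sub_mul]
    omega
  refine ⟨t, s, s.num.natAbs, s.den - s.num.natAbs, s.den, ht, hs, ht0, ht1, hs0, hs1, rfl, rfl,
    by omega, by omega, by omega, ?_, ⟨by exact_mod_cast qA', by exact_mod_cast qB',
      by exact_mod_cast qQ'⟩, ?_, ?_, ?_, hs'⟩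
  · have := s.reduced
    exact (Nat.coprime_sub_self_right hlt.le).2 this
  · exact (R_dvd d1 ha'.ne').trans ((R_mul _ _).trans (Nat.mul_le_mul_right _ (R_pow _ _)))
  · exact (R_dvd ⟨g, e3⟩ hb'.ne').trans ((R_mul _ _).trans (Nat.mul_le_mul_right _ (R_pow _ _)))
  · exact (R_dvd d2 hc'.ne').trans ((R_mul _ _).trans (Nat.mul_le_mul_right _ (R_pow _ _)))

/-- the interval for `t` -/
lemma interval {n m k : ℕ} {A B Q : ℤ[X]} (h : PD n m k A B Q) (hn : Even n) {θ₁ θ₂ : ℝ}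
    (h0 : 0 < θ₁) (h12 : θ₁ < θ₂) (h1 : θ₂ < 1) : ∃ r s : ℝ, 0 < r ∧ r < s ∧ s < 1 ∧
      ∀ t : ℝ, r < 1 - t → 1 - t < s →
        θ₁ < (X ^ (n + m + 1) * Q.map (Int.castRingHom ℝ)).eval t /
          (A.map (Int.castRingHom ℝ)).eval t ∧
        (X ^ (n + m + 1) * Q.map (Int.castRingHom ℝ)).eval t /
          (A.map (Int.castRingHom ℝ)).eval t < θ₂ := by
  obtain ⟨f, hf⟩ : ∃ f : ℝ → ℝ, f = fun t => (X ^ (n + m + 1) * Q.map (Int.castRingHom ℝ)).eval t /
          (A.map (Int.castRingHom ℝ)).eval t := ⟨_, rfl⟩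
  have hK := h.toPK ℝ
  have hB0 : 0 < (B.map (Int.castRingHom ℝ)).eval 0 := by
    have := eval_intCast_map (Int.castRingHom ℝ) B 0
    rw [Int.cast_zero] at this
    rw [this]
    have h3 := h.B0
    simpa using h3
  have hQ0 : 0 < (Q.map (Int.castRingHom ℝ)).eval 0 := by
    have := eval_intCast_map (Int.castRingHom ℝ) Q 0
    rw [Int.cast_zero] at this
    rw [this]
    have h3 := h.Cpos hn
    simpa using h3
  have hA : ∀ t ∈ Set.Icc (0 : ℝ) 1, 0 < (A.map (Int.castRingHom ℝ)).eval t :=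
    fun t ht => (pos_all hK hB0 hQ0 ht.1 ht.2).1
  have hcont : ContinuousOn f (Set.Icc 0 1) := by
    rw [hf]
    exact (Polynomial.continuous _).continuousOn.div (Polynomial.continuous _).continuousOn
      fun t ht => (hA t ht).ne'
  have hf0 : f 0 = 0 := by
    rw [hf]
    simp
  have hf1 : f 1 = 1 := by
    rw [hf]
    have h2 := congrArg (eval 1) hK.eq
    simp only [eval_sub, eval_mul, eval_pow, eval_one, eval_X, sub_self] at h2
    rw [zero_pow (by omega), zero_mul, sub_zero] at h2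
    simp only [eval_mul, eval_pow, eval_X]
    rw [← h2]
    exact div_self (hA 1 (by simp)).ne'
  obtain ⟨θ, hθ⟩ : ∃ θ, θ = (θ₁ + θ₂) / 2 := ⟨_, rfl⟩
  have hθm : θ ∈ Set.Icc (f 0) (f 1) := by
    rw [hf0, hf1]
    constructor <;> linarith
  obtain ⟨t₀, ht₀, hft⟩ := intermediate_value_Icc (zero_le_one) hcont hθm
  have ht0 : 0 < t₀ := by
    rcases eq_or_lt_of_le ht₀.1 with h2 | h2
    · rw [← h2, hf0] at hft
      linarith
    · exact h2
  have ht1 : t₀ < 1 := by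
    rcases eq_or_lt_of_le ht₀.2 with h2 | h2
    · rw [h2, hf1] at hft
      linarith
    · exact h2
  have hca : ContinuousAt f t₀ := hcont.continuousAt (Icc_mem_nhds ht0 ht1)
  have hev : ∀ᶠ t in nhds t₀, f t ∈ Set.Ioo θ₁ θ₂ :=
    hca.eventually (Ioo_mem_nhds (by rw [hft]; linarith) (by rw [hft]; linarith))
  obtain ⟨δ, hδ, hball⟩ := Metric.eventually_nhds_iff.1 hev
  obtain ⟨η, hη⟩ : ∃ η, η = min (δ / 2) (min (t₀ / 2) ((1 - t₀) / 2)) := ⟨_, rfl⟩
  have hη0 : 0 < η := by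
    rw [hη]
    refine lt_min (by positivity) (lt_min (by positivity) (by linarith))
  have hη1 : η ≤ δ / 2 := by rw [hη]; exact min_le_left _ _
  have hη2 : η ≤ t₀ / 2 := by rw [hη]; exact (min_le_right _ _).trans (min_le_left _ _)
  have hη3 : η ≤ (1 - t₀) / 2 := by rw [hη]; exact (min_le_right _ _).trans (min_le_right _ _)
  refine ⟨1 - t₀ - η, 1 - t₀ + η, by linarith, by linarith, by linarith, fun t h3 h4 => ?_⟩
  have h5 := hball (y := t) (by
    rw [Real.dist_eq, abs_lt]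
    constructor <;> linarith)
  rw [hf] at h5
  exact h5

lemma bounded (P : ℝ[X]) : ∃ L : ℕ, 1 ≤ L ∧ ∀ t : ℝ, 0 ≤ t → t ≤ 1 → P.eval t ≤ L := by
  obtain ⟨C, hC⟩ := (isCompact_Icc (a := (0 : ℝ)) (b := 1)).exists_bound_of_continuousOn
    (f := fun t => P.eval t) (Polynomial.continuous _).continuousOn
  obtain ⟨L, hL⟩ := exists_nat_ge (max C 1)
  refine ⟨L, ?_, fun t h0 h1 => ?_⟩
  · have := (le_max_right C 1).trans hL
    exact_mod_cast this
  · exact (le_abs_self _).trans ((hC t ⟨h0, h1⟩).trans ((le_max_left _ _).trans hL))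

lemma pow_ineq {κ z : ℝ} {D j a : ℕ} (hκ : 0 < κ) (hκ1 : κ ≤ 1) (hz : 0 < z) (hD : 0 < D)
    (hj : j ≤ D) (ha : κ * z ^ D ≤ a) : κ * z ^ j ≤ (a : ℝ) ^ ((j : ℝ) / D) := by
  have hD' : (0 : ℝ) < D := by exact_mod_cast hD
  have hj' : (j : ℝ) ≤ D := by exact_mod_cast hj
  have h1 : (κ * z ^ D) ^ ((j : ℝ) / D) ≤ (a : ℝ) ^ ((j : ℝ) / D) :=
    Real.rpow_le_rpow (by positivity) ha (by positivity)
  refine le_trans ?_ h1
  rw [Real.mul_rpow hκ.le (by positivity)]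
  have h2 : (z ^ D) ^ ((j : ℝ) / D) = z ^ j := by
    rw [← Real.rpow_natCast z D, ← Real.rpow_mul hz.le, mul_div_cancel₀ _ hD'.ne',
      Real.rpow_natCast]
  rw [h2]
  refine mul_le_mul_of_nonneg_right ?_ (by positivity)
  have h3 : κ ^ (1 : ℝ) ≤ κ ^ ((j : ℝ) / D) :=
    Real.rpow_le_rpow_of_exponent_ge hκ hκ1 (by rw [div_le_one hD']; exact hj')
  rwa [Real.rpow_one] at h3

theorem main1 {n m k : ℕ} (hn : Even n) (hn0 : 1 ≤ n) (hm : 1 ≤ m) {θ₁ θ₂ : ℝ}
    (h0 : 0 < θ₁) (h12 : θ₁ < θ₂) (h1 : θ₂ < 1) (K : ℝ) (N : ℕ) :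
    ∃ a b c : ℕ, N ≤ c ∧ 0 < a ∧ 0 < b ∧ Nat.Coprime a b ∧ a + b = c ∧ θ₁ * c < a ∧ a < θ₂ * c ∧
      K * R a ≤ (a : ℝ) ^ (((k + 1 : ℕ) : ℝ) / (n + m + k + 1 : ℕ)) ∧
      K * R b ≤ (b : ℝ) ^ ((m : ℝ) / (n + m + k + 1 : ℕ)) ∧
      K * R c ≤ (c : ℝ) ^ ((n : ℝ) / (n + m + k + 1 : ℕ)) := by
  obtain ⟨D, hD⟩ : ∃ D, D = n + m + k + 1 := ⟨_, rfl⟩
  obtain ⟨A, B, Q, h⟩ := exists_pade n m k
  obtain ⟨r, s, hr, hrs, hs, hI⟩ := interval h hn h0 h12 h1
  obtain ⟨C1, C2, hC1, hC2, C3, hC3, Δ, hΔ, Z, hZ, hv⟩ := Q265.LC.values (h.toPK ℚ).bel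
  obtain ⟨LA, hLA, hLA'⟩ := bounded (A.map (Int.castRingHom ℝ))
  obtain ⟨LB, hLB, hLB'⟩ := bounded (B.map (Int.castRingHom ℝ))
  obtain ⟨LQ, hLQ, hLQ'⟩ := bounded (Q.map (Int.castRingHom ℝ))
  obtain ⟨κ, hκ⟩ : ∃ κ, κ = min 1 (min θ₁ (1 - θ₂) / C1) := ⟨_, rfl⟩
  have hκ0 : 0 < κ := by
    rw [hκ]
    refine lt_min one_pos (div_pos (lt_min h0 (by linarith)) hC1)
  have hκ1 : κ ≤ 1 := by rw [hκ]; exact min_le_left _ _
  have hκ2 : κ * C1 ≤ θ₁ ∧ κ * C1 ≤ 1 - θ₂ := by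
    have : κ ≤ min θ₁ (1 - θ₂) / C1 := by rw [hκ]; exact min_le_right _ _
    rw [le_div_iff₀ hC1] at this
    exact ⟨this.trans (min_le_left _ _), this.trans (min_le_right _ _)⟩
  obtain ⟨K', hK'⟩ := exists_nat_ge (max K 0 * (LA * LB * LQ) / κ)
  rw [div_le_iff₀ hκ0] at hK'
  -- the bound for the exceptional set and for `c`
  obtain ⟨N₁, hN₁⟩ : ∃ N₁ : ℕ, ∀ t ∈ Z, t.den ≤ N₁ := by
    obtain ⟨M, hM⟩ := (hZ.image fun t => t.den).bddAbove
    exact ⟨M, fun t ht => hM ⟨t, ht, rfl⟩⟩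
  obtain ⟨N₂, hN₂⟩ := exists_nat_ge (N * C1)
  have hK := h.toPK ℚ
  have hA1 : 1 ≤ A.natDegree := by
    have h2 := hK.degs.2.1
    have h3 := natDegree_map_le (f := Int.castRingHom ℚ) (p := A)
    omega
  have hB1 : 1 ≤ B.natDegree := by
    have h2 := hK.degs.2.2
    have h3 := natDegree_map_le (f := Int.castRingHom ℚ) (p := B)
    omega
  have e1 : ∀ P : ℤ[X], (P.map (Int.castRingHom ℚ)).eval 1 = ((P.eval 1 : ℤ) : ℚ) := fun P => by
    have := eval_intCast_map (Int.castRingHom ℚ) P 1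
    rw [Int.cast_one] at this
    rw [this]
    simp
  have hA3 : A.eval 1 ≠ 0 := by
    have h2 := hK.one.2
    rw [e1] at h2
    exact_mod_cast h2
  have hB3 : B.eval 1 ≠ 0 := by
    have h2 := hK.one.1
    rw [e1] at h2
    exact_mod_cast h2
  have hsA : IsCoprime (A.map (Int.castRingHom ℚ)) ((derivative A).map (Int.castRingHom ℚ)) := by
    rw [← derivative_map]
    exact hK.sepA
  have hsB : IsCoprime (B.map (Int.castRingHom ℚ)) ((derivative B).map (Int.castRingHom ℚ)) := by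
    rw [← derivative_map]
    exact hK.sepB
  obtain ⟨y, z, hNz, hy, hyz, hcop, hyz1, hyz2, g1, g2, g3⟩ := base h.degA h.degB hsA hsB hA1 hB1
    h.A0.ne' hA3 h.B0.ne' hB3 K' hr hrs hs.le (N₁ + N₂ + 1)
  obtain ⟨t, S, a, b, c, ht, hS, ht0, ht1, hS0, hS1, ha, hc, hsum, ha0, hb0, hab, ⟨pA, pB, pQ⟩, rA,
    rB, rC, -⟩ := triple h hn hy hyz
  have hz0 : 0 < z := by omega
  have hz0' : (0 : ℝ) < z := by exact_mod_cast hz0
  have hz1' : (1 : ℝ) ≤ z := by exact_mod_cast hz0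
  have htr : (t : ℝ) = 1 - (y : ℝ) / z := by
    rw [ht]
    push_cast [hyz.le]
    field_simp
  have hIt := hI (t : ℝ) (by rw [htr]; linarith) (by rw [htr]; linarith)
  have hSr : (X ^ (n + m + 1) * Q.map (Int.castRingHom ℝ)).eval (t : ℝ) /
          (A.map (Int.castRingHom ℝ)).eval (t : ℝ) = (S : ℝ) := by
    rw [hS, Rat.cast_div, ← eval_cast, eval_mul, eval_mul, ← eval_cast]
    simp
  rw [hSr] at hIt
  have hc0 : 0 < c := by omega
  have hc0' : (0 : ℝ) < c := by exact_mod_cast hc0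
  have hSac : (S : ℝ) = a / c := by
    have hnum : 0 < S.num := Rat.num_pos.2 hS0
    have h2 : (S.num : ℝ) = a := by
      have : S.num = (a : ℤ) := by omega
      rw [this]
      simp
    rw [Rat.cast_def, h2, hc]
  rw [hSac, lt_div_iff₀ hc0', div_lt_iff₀ hc0'] at hIt
  -- the denominator of `t`
  have htden : t.den = z := by
    have hcop' : Nat.Coprime (z - y) z := (Nat.coprime_self_sub_left hyz.le).2 hcop
    have : t = ((z - y : ℕ) : ℤ) / ((z : ℕ) : ℤ) := by rw [ht]; push_cast; rfl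
    rw [this]
    have h2 := Rat.den_div_eq_of_coprime (a := ((z - y : ℕ) : ℤ)) (b := (z : ℤ))
      (by exact_mod_cast hz0) (by simpa using hcop')
    exact_mod_cast h2
  have htZ : t ∉ Z := fun hmem => by
    have := hN₁ t hmem
    omega
  obtain ⟨-, -, -, hH, -⟩ := hv t htZ
  rw [← hS, ← hD] at hH
  have hHt : (z : ℝ) ≤ Q265.LC.H t := by
    unfold Q265.LC.H
    rw [htden]
    exact le_max_right _ _
  have hHS : Q265.LC.H S = c := by
    unfold Q265.LC.H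
    have hnum : 0 < S.num := Rat.num_pos.2 hS0
    rw [← hc]
    refine max_eq_right ?_
    have h2 : |(S.num : ℝ)| = a := by
      have : S.num = (a : ℤ) := by omega
      rw [this]
      simp
    rw [h2]
    exact_mod_cast (by omega : a ≤ c)
  rw [hHS] at hH
  have hcz : (z : ℝ) ^ D ≤ C1 * c := le_trans (by gcongr) hH
  have hca : κ * (z : ℝ) ^ D ≤ a := by
    calc κ * (z : ℝ) ^ D ≤ κ * (C1 * c) := by gcongr
      _ = κ * C1 * c := by ring
      _ ≤ θ₁ * c := by gcongr; exact hκ2.1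
      _ ≤ a := hIt.1.le
  have hbr : (b : ℝ) = c - a := by
    rw [← hsum]
    push_cast
    ring
  have hcb : κ * (z : ℝ) ^ D ≤ b := by
    calc κ * (z : ℝ) ^ D ≤ κ * (C1 * c) := by gcongr
      _ = κ * C1 * c := by ring
      _ ≤ (1 - θ₂) * c := by gcongr; exact hκ2.2
      _ ≤ b := by rw [hbr]; linarith [hIt.2]
  have hcc : κ * (z : ℝ) ^ D ≤ c := by
    refine hca.trans ?_
    exact_mod_cast (by omega : a ≤ c)
  -- the values of the forms
  have hz0i : (z : ℤ) ≠ 0 := by exact_mod_cast hz0.ne'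
  have htr' : (((z : ℤ) - y : ℤ) : ℝ) / ((z : ℤ) : ℝ) = t := by
    rw [htr]
    push_cast
    field_simp
  have ht0' : (0 : ℝ) ≤ t := by exact_mod_cast ht0.le
  have ht1' : (t : ℝ) ≤ 1 := by exact_mod_cast ht1.le
  have key : ∀ {P : ℤ[X]} {e L : ℕ}, P.natDegree ≤ e → 0 < hom P e ((z : ℤ) - y) z →
      (∀ t : ℝ, 0 ≤ t → t ≤ 1 → (P.map (Int.castRingHom ℝ)).eval t ≤ L) →
      ((hom P e ((z : ℤ) - y) z).natAbs : ℝ) ≤ L * (z : ℝ) ^ e := by
    intro P e L hP hpos hL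
    have h2 := hom_eq (K := ℝ) hP (x := (z : ℤ) - y) hz0i
    rw [htr'] at h2
    have h3 : ∀ v : ℤ, 0 < v → ((v.natAbs : ℕ) : ℝ) = ((v : ℤ) : ℝ) := fun v hv => by
      rw [Nat.cast_natAbs, abs_of_pos hv]
    rw [h3 _ hpos, h2, Int.cast_natCast, mul_comm]
    exact mul_le_mul_of_nonneg_right (hL _ ht0' ht1') (by positivity)
  have kA := key h.degA pA hLA'
  have kB := key h.degB pB hLB'
  have kQ := key h.degC pQ hLQ'
  have hLA1 : (1 : ℝ) ≤ LA := by exact_mod_cast hLA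
  have hLB1 : (1 : ℝ) ≤ LB := by exact_mod_cast hLB
  have hLQ1 : (1 : ℝ) ≤ LQ := by exact_mod_cast hLQ
  have hK1 : K ≤ max K 0 := le_max_left _ _
  have hK0 : (0 : ℝ) ≤ max K 0 := le_max_right _ _
  have hzx : ((z - y : ℕ) : ℝ) ≤ z := by exact_mod_cast Nat.sub_le z y
  refine ⟨a, b, c, ?_, ha0, hb0, hab, hsum, hIt.1, hIt.2, ?_, ?_, ?_⟩
  · have h2 : (N : ℝ) * C1 ≤ C1 * c := by
      refine hN₂.trans (le_trans ?_ hcz)
      calc (N₂ : ℝ) ≤ z := by exact_mod_cast (by omega : N₂ ≤ z)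
        _ = (z : ℝ) ^ 1 := by rw [pow_one]
        _ ≤ (z : ℝ) ^ D := pow_le_pow_right₀ hz1' (by omega)
    have h3 : (N : ℝ) ≤ c := by
      rw [mul_comm] at h2
      exact le_of_mul_le_mul_left h2 hC1
    exact_mod_cast h3
  · have h2 := pow_ineq (j := k + 1) hκ0 hκ1 hz0' (show 0 < D by omega) (by omega) hca
    rw [← hD]
    refine le_trans ?_ h2
    have h3 : (K' : ℝ) * R (z - y) ≤ z := by
      have : ((K' * R (z - y) : ℕ) : ℝ) ≤ ((z - y : ℕ) : ℝ) := by exact_mod_cast g1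
      push_cast at this hzx ⊢
      linarith
    have h4 : (R a : ℝ) ≤ R (z - y) * (LQ * (z : ℝ) ^ k) := by
      have h5 : (R a : ℝ) ≤ R (z - y) * R (hom Q k ((z : ℤ) - y) z).natAbs := by exact_mod_cast rA
      refine h5.trans ?_
      have h6 : (R (hom Q k ((z : ℤ) - y) z).natAbs : ℝ) ≤ (hom Q k ((z : ℤ) - y) z).natAbs := by
        exact_mod_cast R_le (Int.natAbs_ne_zero.2 pQ.ne')
      gcongr
      exact h6.trans kQ
    calc K * R a ≤ max K 0 * (R (z - y) * (LQ * (z : ℝ) ^ k)) := by gcongr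
      _ = max K 0 * (1 * 1 * LQ) * (R (z - y) * (z : ℝ) ^ k) := by ring
      _ ≤ max K 0 * (LA * LB * LQ) * (R (z - y) * (z : ℝ) ^ k) := by gcongr
      _ ≤ K' * κ * (R (z - y) * (z : ℝ) ^ k) := by gcongr
      _ = κ * (K' * R (z - y)) * (z : ℝ) ^ k := by ring
      _ ≤ κ * z * (z : ℝ) ^ k := by gcongr
      _ = κ * (z : ℝ) ^ (k + 1) := by ring
  · have h2 := pow_ineq (j := m) hκ0 hκ1 hz0' (show 0 < D by omega) (by omega) hcb
    rw [← hD]
    refine le_trans ?_ h2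
    have h3 : (K' : ℝ) * (R y * R (hom B m ((z : ℤ) - y) z).natAbs) ≤ LB * (z : ℝ) ^ m := by
      refine le_trans ?_ kB
      exact_mod_cast g2 pB.ne'
    have h4 : (R b : ℝ) ≤ R y * R (hom B m ((z : ℤ) - y) z).natAbs := by exact_mod_cast rB
    have h5 : max K 0 * (LA * 1 * LQ) ≤ max K 0 * (LA * LB * LQ) := by gcongr
    have h6 : max K 0 * LB ≤ K' * κ := by
      refine le_trans ?_ hK'
      calc max K 0 * LB = max K 0 * (1 * LB * 1) := by ring
        _ ≤ _ := by gcongr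
    have hLB0 : (0 : ℝ) < LB := by linarith
    have h7 : LB * (K * R b) ≤ LB * (κ * (z : ℝ) ^ m) := by
      calc LB * (K * R b) ≤ LB * (max K 0 * (R y * R (hom B m ((z : ℤ) - y) z).natAbs)) := by gcongr
        _ = max K 0 * LB * (R y * R (hom B m ((z : ℤ) - y) z).natAbs) := by ring
        _ ≤ K' * κ * (R y * R (hom B m ((z : ℤ) - y) z).natAbs) := by gcongr
        _ = κ * (K' * (R y * R (hom B m ((z : ℤ) - y) z).natAbs)) := by ring
        _ ≤ κ * (LB * (z : ℝ) ^ m) := by gcongr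
        _ = _ := by ring
    exact le_of_mul_le_mul_left h7 hLB0
  · have h2 := pow_ineq (j := n) hκ0 hκ1 hz0' (show 0 < D by omega) (by omega) hcc
    rw [← hD]
    refine le_trans ?_ h2
    have h3 : (K' : ℝ) * (R z * R (hom A n ((z : ℤ) - y) z).natAbs) ≤ LA * (z : ℝ) ^ n := by
      refine le_trans ?_ kA
      exact_mod_cast g3 pA.ne'
    have h4 : (R c : ℝ) ≤ R z * R (hom A n ((z : ℤ) - y) z).natAbs := by exact_mod_cast rC
    have h6 : max K 0 * LA ≤ K' * κ := by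
      refine le_trans ?_ hK'
      calc max K 0 * LA = max K 0 * (LA * 1 * 1) := by ring
        _ ≤ _ := by gcongr
    have hLA0 : (0 : ℝ) < LA := by linarith
    have h7 : LA * (K * R c) ≤ LA * (κ * (z : ℝ) ^ n) := by
      calc LA * (K * R c) ≤ LA * (max K 0 * (R z * R (hom A n ((z : ℤ) - y) z).natAbs)) := by gcongr
        _ = max K 0 * LA * (R z * R (hom A n ((z : ℤ) - y) z).natAbs) := by ring
        _ ≤ K' * κ * (R z * R (hom A n ((z : ℤ) - y) z).natAbs) := by gcongr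
        _ = κ * (K' * (R z * R (hom A n ((z : ℤ) - y) z).natAbs)) := by ring
        _ ≤ κ * (LA * (z : ℝ) ^ n) := by gcongr
        _ = _ := by ring
    exact le_of_mul_le_mul_left h7 hLA0

end H584.SH
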