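import Mathlib
import Pool.Agent.H584.SH.Main

/-!
# Consecutive integers on the boundary plane of Mazur's question
-/

set_option autoImplicit false

open Polynomial Finset

namespace H584.SH

theorem main2 {n m : ℕ} (hn : Even n) (hn0 : 1 ≤ n) (K : ℝ) (N : ℕ) :
    ∃ b : ℕ, N ≤ b ∧ 0 < b ∧
      K * R b ≤ (b : ℝ) ^ (((m + 1 : ℕ) : ℝ) / (n + m + 1 : ℕ)) ∧
      K * R (b + 1) ≤ ((b + 1 : ℕ) : ℝ) ^ ((n : ℝ) / (n + m + 1 : ℕ)) := by
  obtain ⟨D, hD⟩ : ∃ D, D = n + m + 1 := ⟨_, rfl⟩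
  obtain ⟨A, B, Q, h⟩ := exists_pade n m 0
  obtain ⟨C1, C2, hC1, hC2, C3, hC3, Δ, hΔ, Z, hZ, hv⟩ := Q265.LC.values (h.toPK ℚ).bel
  obtain ⟨LA, hLA, hLA'⟩ := bounded (A.map (Int.castRingHom ℝ))
  obtain ⟨LB, hLB, hLB'⟩ := bounded (B.map (Int.castRingHom ℝ))
  obtain ⟨κ, hκ⟩ : ∃ κ, κ = min 1 (1 / (2 * C1)) := ⟨_, rfl⟩
  have hκ0 : 0 < κ := by
    rw [hκ]
    exact lt_min one_pos (by positivity)
  have hκ1 : κ ≤ 1 := by rw [hκ]; exact min_le_left _ _
  have hκ2 : κ * C1 ≤ 1 / 2 := by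
    have : κ ≤ 1 / (2 * C1) := by rw [hκ]; exact min_le_right _ _
    calc κ * C1 ≤ 1 / (2 * C1) * C1 := by gcongr
      _ = 1 / 2 := by field_simp
  obtain ⟨K', hK'⟩ := exists_nat_ge (max K 0 * (LA * LB) / κ)
  rw [div_le_iff₀ hκ0] at hK'
  obtain ⟨N₁, hN₁⟩ : ∃ N₁ : ℕ, ∀ t ∈ Z, t.den ≤ N₁ := by
    obtain ⟨M, hM⟩ := (hZ.image fun t => t.den).bddAbove
    exact ⟨M, fun t ht => hM ⟨t, ht, rfl⟩⟩
  obtain ⟨N₂, hN₂⟩ := exists_nat_ge ((N + 2) * C1)
  have hK := h.toPK ℚ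
  have hA1 : 1 ≤ A.natDegree := by
    have h2 := hK.degs.2.1
    have h3 := natDegree_map_le (f := Int.castRingHom ℚ) (p := A)
    omega
  have e1 : ∀ P : ℤ[X], (P.map (Int.castRingHom ℚ)).eval 1 = ((P.eval 1 : ℤ) : ℚ) := fun P => by
    have := eval_intCast_map (Int.castRingHom ℚ) P 1
    rw [Int.cast_one] at this
    rw [this]
    simp
  have hA3 : A.eval 1 ≠ 0 := by
    have h2 := hK.one.2
    rw [e1] at h2
    exact_mod_cast h2
  have hsA : IsCoprime (A.map (Int.castRingHom ℚ)) ((derivative A).map (Int.castRingHom ℚ)) := by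
    rw [← derivative_map]
    exact hK.sepA
  -- the constant
  obtain ⟨c₀, hc₀⟩ : ∃ c₀ : ℕ, Q.coeff 0 = c₀ := by
    have h2 := h.Cpos hn
    rw [← coeff_zero_eq_eval_zero] at h2
    exact Int.eq_ofNat_of_zero_le h2.le
  have hc₀' : 0 < c₀ := by
    have h2 := h.Cpos hn
    rw [← coeff_zero_eq_eval_zero, hc₀] at h2
    exact_mod_cast h2
  obtain ⟨z, hNz, hz2, hcz, g1, g3⟩ := base2 h.degA hsA hA1 h.A0.ne' hA3 K' c₀ hc₀' (N₁ + N₂ + 1)
  obtain ⟨y, hyd⟩ : ∃ y, y = z - 1 := ⟨_, rfl⟩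
  have hzy : (z : ℤ) - y = 1 := by rw [hyd]; push_cast [show 1 ≤ z by omega]; ring
  have hzy' : z - y = 1 := by omega
  obtain ⟨t, S, a, b, c, ht, hS, ht0, ht1, hS0, hS1, ha, hc, hsum, ha0, hb0, hab, ⟨pA, pB, pQ⟩, rA,
    rB, rC, hS'⟩ := triple h hn (y := y) (z := z) (by omega) (by omega)
  rw [hzy] at pA pB pQ rA rB rC hS'
  rw [hzy'] at ht hS'
  have hz0 : 0 < z := by omega
  have hz0' : (0 : ℝ) < z := by exact_mod_cast hz0
  have hz1' : (1 : ℝ) ≤ z := by exact_mod_cast hz0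
  -- `a = 1`
  have hhQ : (hom Q 0 1 z).natAbs = c₀ := by
    unfold hom
    simp [hc₀]
  rw [hhQ, one_pow, one_mul] at hS'
  have ha1 : a = 1 := by
    obtain ⟨u, hu⟩ : c₀ ∣ z ^ (m + 0 + 1) * (hom A n 1 z).natAbs :=
      (hcz.trans (dvd_pow_self _ (by omega))).mul_right _
    have hu0 : 0 < u := by
      rcases Nat.eq_zero_or_pos u with h2 | h2
      · rw [h2, mul_zero] at hu
        have h3 : 0 < z ^ (m + 0 + 1) * (hom A n 1 z).natAbs :=
          Nat.mul_pos (pow_pos hz0 _) (Int.natAbs_pos.2 pA.ne')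
        omega
      · exact h2
    rw [hu] at hS'
    have h4 : S = ((u : ℤ) : ℚ)⁻¹ := by
      rw [hS']
      push_cast
      have h5 : (c₀ : ℚ) ≠ 0 := by exact_mod_cast hc₀'.ne'
      have h6 : (u : ℚ) ≠ 0 := by exact_mod_cast hu0.ne'
      field_simp
    rw [ha, h4, Rat.inv_intCast_num]
    have : Int.sign u = 1 := Int.sign_eq_one_of_pos (by exact_mod_cast hu0)
    rw [this]
    rfl
  have hc0 : 0 < c := by omega
  have hc0' : (0 : ℝ) < c := by exact_mod_cast hc0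
  have hcb1 : c = b + 1 := by omega
  -- the denominator of `t`
  have htden : t.den = z := by
    have : t = ((z : ℤ) : ℚ)⁻¹ := by rw [ht]; push_cast; rw [one_div]
    rw [this, Rat.inv_intCast_den]
    rw [if_neg (by exact_mod_cast hz0.ne')]
    simp
  have htZ : t ∉ Z := fun hmem => by
    have := hN₁ t hmem
    omega
  obtain ⟨-, -, -, hH, -⟩ := hv t htZ
  have hD' : n + m + 0 + 1 = D := by omega
  rw [← hS, hD'] at hH
  have hHt : (z : ℝ) ≤ Q265.LC.H t := by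
    unfold Q265.LC.H
    rw [htden]
    exact le_max_right _ _
  have hHS : Q265.LC.H S = c := by
    unfold Q265.LC.H
    have hnum : 0 < S.num := Rat.num_pos.2 hS0
    rw [← hc]
    refine max_eq_right ?_
    have h2 : |(S.num : ℝ)| = a := by
      have : S.num = (a : ℤ) := by omega
      rw [this]
      simp
    rw [h2]
    exact_mod_cast (by omega : a ≤ c)
  rw [hHS] at hH
  have hczD : (z : ℝ) ^ D ≤ C1 * c := le_trans (by gcongr) hH
  have hcN : ((N + 2 : ℕ) : ℝ) ≤ c := by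
    have h2 : ((N : ℝ) + 2) * C1 ≤ C1 * c := by
      refine hN₂.trans (le_trans ?_ hczD)
      calc (N₂ : ℝ) ≤ z := by exact_mod_cast (by omega : N₂ ≤ z)
        _ = (z : ℝ) ^ 1 := by rw [pow_one]
        _ ≤ (z : ℝ) ^ D := pow_le_pow_right₀ hz1' (by omega)
    push_cast
    rw [mul_comm] at h2
    exact le_of_mul_le_mul_left h2 hC1
  have hcN' : N + 2 ≤ c := by exact_mod_cast hcN
  have hcb : κ * (z : ℝ) ^ D ≤ b := by
    have hbr : (c : ℝ) = b + 1 := by exact_mod_cast hcb1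
    have hc2 : (2 : ℝ) ≤ c := by exact_mod_cast (by omega : 2 ≤ c)
    calc κ * (z : ℝ) ^ D ≤ κ * (C1 * c) := by gcongr
      _ = κ * C1 * c := by ring
      _ ≤ 1 / 2 * c := by gcongr
      _ ≤ b := by linarith
  have hcc : κ * (z : ℝ) ^ D ≤ c := by
    refine hcb.trans ?_
    exact_mod_cast (by omega : b ≤ c)
  have hz0i : (z : ℤ) ≠ 0 := by exact_mod_cast hz0.ne'
  have htr' : ((1 : ℤ) : ℝ) / ((z : ℤ) : ℝ) = t := by
    rw [ht]
    push_cast
    rfl
  have ht0' : (0 : ℝ) ≤ t := by exact_mod_cast ht0.le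
  have ht1' : (t : ℝ) ≤ 1 := by exact_mod_cast ht1.le
  have key : ∀ {P : ℤ[X]} {e L : ℕ}, P.natDegree ≤ e → 0 < hom P e 1 z →
      (∀ t : ℝ, 0 ≤ t → t ≤ 1 → (P.map (Int.castRingHom ℝ)).eval t ≤ L) →
      ((hom P e 1 z).natAbs : ℝ) ≤ L * (z : ℝ) ^ e := by
    intro P e L hP hpos hL
    have h2 := hom_eq (K := ℝ) hP (x := 1) hz0i
    rw [htr'] at h2
    have h3 : ∀ v : ℤ, 0 < v → ((v.natAbs : ℕ) : ℝ) = ((v : ℤ) : ℝ) := fun v hv => by
      rw [Nat.cast_natAbs, abs_of_pos hv]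
    rw [h3 _ hpos, h2, Int.cast_natCast, mul_comm]
    exact mul_le_mul_of_nonneg_right (hL _ ht0' ht1') (by positivity)
  have kA := key h.degA pA hLA'
  have kB := key h.degB pB hLB'
  have hLA1 : (1 : ℝ) ≤ LA := by exact_mod_cast hLA
  have hLB1 : (1 : ℝ) ≤ LB := by exact_mod_cast hLB
  have hK1 : K ≤ max K 0 := le_max_left _ _
  have hK0 : (0 : ℝ) ≤ max K 0 := le_max_right _ _
  refine ⟨b, by omega, hb0, ?_, ?_⟩
  · have h2 := pow_ineq (j := m + 1) hκ0 hκ1 hz0' (show 0 < D by omega) (by omega) hcb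
    rw [← hD]
    refine le_trans ?_ h2
    have h3 : (K' : ℝ) * R y ≤ z := by
      have : ((K' * R (z - 1) : ℕ) : ℝ) ≤ ((z : ℕ) : ℝ) := by
        exact_mod_cast g1.trans (Nat.sub_le z 1)
      rw [← hyd] at this
      push_cast at this
      linarith
    have h4 : (R b : ℝ) ≤ R y * (LB * (z : ℝ) ^ m) := by
      have h5 : (R b : ℝ) ≤ R y * R (hom B m 1 z).natAbs := by exact_mod_cast rB
      refine h5.trans ?_
      have h6 : (R (hom B m 1 z).natAbs : ℝ) ≤ (hom B m 1 z).natAbs := by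
        exact_mod_cast R_le (Int.natAbs_ne_zero.2 pB.ne')
      gcongr
      exact h6.trans kB
    calc K * R b ≤ max K 0 * (R y * (LB * (z : ℝ) ^ m)) := by gcongr
      _ = max K 0 * (1 * LB) * (R y * (z : ℝ) ^ m) := by ring
      _ ≤ max K 0 * (LA * LB) * (R y * (z : ℝ) ^ m) := by gcongr
      _ ≤ K' * κ * (R y * (z : ℝ) ^ m) := by gcongr
      _ = κ * (K' * R y) * (z : ℝ) ^ m := by ring
      _ ≤ κ * z * (z : ℝ) ^ m := by gcongr
      _ = κ * (z : ℝ) ^ (m + 1) := by ring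
  · have h2 := pow_ineq (j := n) hκ0 hκ1 hz0' (show 0 < D by omega) (by omega) hcc
    rw [← hD, ← hcb1]
    refine le_trans ?_ h2
    have h3 : (K' : ℝ) * (R z * R (hom A n 1 z).natAbs) ≤ LA * (z : ℝ) ^ n := by
      refine le_trans ?_ kA
      exact_mod_cast g3 pA.ne'
    have h4 : (R c : ℝ) ≤ R z * R (hom A n 1 z).natAbs := by exact_mod_cast rC
    have h6 : max K 0 * LA ≤ K' * κ := by
      refine le_trans ?_ hK'
      calc max K 0 * LA = max K 0 * (LA * 1) := by ring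
        _ ≤ _ := by gcongr
    have hLA0 : (0 : ℝ) < LA := by linarith
    have h7 : LA * (K * R c) ≤ LA * (κ * (z : ℝ) ^ n) := by
      calc LA * (K * R c) ≤ LA * (max K 0 * (R z * R (hom A n 1 z).natAbs)) := by gcongr
        _ = max K 0 * LA * (R z * R (hom A n 1 z).natAbs) := by ring
        _ ≤ K' * κ * (R z * R (hom A n 1 z).natAbs) := by gcongr
        _ = κ * (K' * (R z * R (hom A n 1 z).natAbs)) := by ring
        _ ≤ κ * (LA * (z : ℝ) ^ n) := by gcongr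
        _ = _ := by ring
    exact le_of_mul_le_mul_left h7 hLA0

end H584.SH
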